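import Pool.Agent.Helper92_SBG.Tdt
import Pool.Agent.Helper92_Sub.Tors

namespace Pool.Agent.SBG.H92

open Pool.Agent.SBG

/-- Elements of the rational span are, up to a factor, in the lattice. -/
lemma LQ_den {ι : Type} (L : AddSubgroup (ι → ℤ)) {y : ι → ℚ} (hy : y ∈ LQ L) :
    ∃ N : ℕ, 0 < N ∧ ∃ l ∈ L, (N : ℚ) • y = castv l := by
  refine Submodule.span_induction (p := fun y _ => ∃ N : ℕ, 0 < N ∧ ∃ l ∈ L, (N : ℚ) • y = castv l)
    ?_ ?_ ?_ ?_ hy
  · rintro _ ⟨l, hl, rfl⟩; exact ⟨1, one_pos, l, hl, by simp⟩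
  · exact ⟨1, one_pos, 0, L.zero_mem, by rw [castv_zero, smul_zero]⟩
  · rintro x y _ _ ⟨N, hN, l, hl, h1⟩ ⟨M, hM, l', hl', h2⟩
    refine ⟨N * M, Nat.mul_pos hN hM, M • l + N • l', L.add_mem (L.nsmul_mem hl _)
      (L.nsmul_mem hl' _), ?_⟩
    rw [castv_add, castv_nsmul, castv_nsmul, ← h1, ← h2, smul_add, smul_smul, smul_smul,
      Nat.cast_mul]
    congr 2; ring
  · rintro q x _ ⟨N, hN, l, hl, h1⟩
    refine ⟨q.den * N, Nat.mul_pos q.pos hN, q.num • l, L.zsmul_mem hl _, ?_⟩
    rw [castv_zsmul, ← h1, smul_smul, smul_smul, Nat.cast_mul]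
    congr 1
    have h3 : (q.den : ℚ) * q = q.num := by rw [mul_comm]; exact Rat.mul_den_eq_num q
    calc (q.den : ℚ) * N * q = (q.den * q) * N := by ring
      _ = q.num * N := by rw [h3]

lemma mem_LQ_iff {ι : Type} {L : AddSubgroup (ι → ℤ)} {x : ι → ℤ} :
    castv x ∈ LQ L ↔ x ∈ sat L := by
  refine ⟨fun h => ?_, castv_mem_LQ⟩
  obtain ⟨N, hN, l, hl, h1⟩ := LQ_den L h
  rw [← castv_nsmul] at h1
  have h2 : N • x = l := by
    funext i
    have := congrFun h1 i
    simp only [castv] at this
    exact_mod_cast this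
  exact ⟨N, hN, by rw [h2]; exact hl⟩

section

variable {κ : Type} [Fintype κ] [DecidableEq κ]

/-- Index of the row lattice of a nonsingular integer matrix. -/
lemma index_rows' (N : Matrix κ κ ℤ) (h : N.det ≠ 0) :
    (AddSubgroup.closure (Set.range N.row)).index = N.det.natAbs := by
  have hNli : LinearIndependent ℤ N.row := by
    rw [Fintype.linearIndependent_iff]
    intro g hg k
    by_contra hk
    have h1 : Matrix.vecMul g N = 0 := by
      funext j
      have := congrFun hg j
      simpa [Matrix.vecMul, dotProduct, Matrix.row, Finset.sum_apply] using this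
    exact h (Matrix.exists_vecMul_eq_zero_iff.mp ⟨g, fun h => hk (by rw [h]; rfl), h1⟩)
  set W : Submodule ℤ (κ → ℤ) := Submodule.span ℤ (Set.range N.row) with hW
  have hWcard : Nat.card ((κ → ℤ) ⧸ W) = N.det.natAbs := by
    rw [← Submodule.natAbs_det_basis_change (Pi.basisFun ℤ κ) W (Module.Basis.span hNli)]
    congr 1
    rw [Pi.basisFun_det]
    have : (fun k => ((Module.Basis.span hNli k : W) : κ → ℤ)) = N := by
      funext k
      rw [Module.Basis.span_apply]
      rfl
    change (Matrix.detRowAlternating (fun k => ((Module.Basis.span hNli k : W) : κ → ℤ))) =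
      N.det
    rw [this]
    rfl
  have : AddSubgroup.closure (Set.range N.row) = W.toAddSubgroup := by
    rw [hW, Submodule.span_int_eq_addSubgroupClosure]
  rw [this]
  exact hWcard

lemma index_ne_zero_of_smul (H : AddSubgroup (κ → ℤ)) (N : ℕ) (hN : 0 < N)
    (h : ∀ i, N • (Pi.single i (1 : ℤ) : κ → ℤ) ∈ H) : H.index ≠ 0 := by
  set M : Matrix κ κ ℤ := Matrix.diagonal (fun _ => (N : ℤ)) with hM
  have hdet : M.det ≠ 0 := by
    rw [hM, Matrix.det_diagonal]
    exact Finset.prod_ne_zero_iff.mpr fun _ _ => (by exact_mod_cast hN.ne')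
  have h1 := index_rows' M hdet
  have hle : AddSubgroup.closure (Set.range M.row) ≤ H := by
    rw [AddSubgroup.closure_le]
    rintro _ ⟨i, rfl⟩
    have : M.row i = N • (Pi.single i (1 : ℤ) : κ → ℤ) := by
      funext j
      by_cases hij : j = i
      · subst hij; simp [hM, Matrix.row]
      · have hij' : ¬ i = j := fun h => hij h.symm
        simp [hM, Matrix.row, Pi.single_apply, hij, hij']
    rw [this]; exact h i
  have h2 := AddSubgroup.index_dvd_of_le hle
  intro h0
  rw [h0, h1] at h2
  exact hdet (Int.natAbs_eq_zero.mp (Nat.eq_zero_of_zero_dvd h2))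

lemma smul_of_index_ne_zero {A : Type*} [AddCommGroup A] (H : AddSubgroup A) (h : H.index ≠ 0)
    (x : A) : H.index • x ∈ H := by
  have : H.FiniteIndex := ⟨h⟩
  exact H.nsmul_index_mem x

/-- A lattice of finite index generated by bounded vectors has bounded index. -/
lemma index_le {κ : Type} [Fintype κ] [DecidableEq κ] (X : Finset (κ → ℤ)) (b : κ → ℕ)
    (hX : ∀ x ∈ X, ∀ i, |x i| ≤ b i)
    (h : (AddSubgroup.closure (X : Set (κ → ℤ))).index ≠ 0) :
    (AddSubgroup.closure (X : Set (κ → ℤ))).index ≤ (Fintype.card κ).factorial * ∏ i, b i := by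
  obtain ⟨I, hI, h1, h2⟩ := Helper92_Sub.tors_bound X b hX
  have hsat : Helper92_Sub.sat (AddSubgroup.closure (X : Set (κ → ℤ))) = ⊤ := by
    rw [eq_top_iff]
    intro x _
    exact ⟨_, Nat.pos_of_ne_zero h, smul_of_index_ne_zero _ h x⟩
  rw [hsat, AddSubgroup.relIndex_top_right] at h2
  have hspan : Submodule.span ℚ (Helper92_Sub.castv '' (X : Set (κ → ℤ))) = ⊤ := by
    have hcl : ∀ y ∈ AddSubgroup.closure (X : Set (κ → ℤ)),
        castv y ∈ Submodule.span ℚ (Helper92_Sub.castv '' (X : Set (κ → ℤ))) := by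
      intro y hy
      refine AddSubgroup.closure_induction (p := fun y _ => castv y ∈ Submodule.span ℚ
        (Helper92_Sub.castv '' (X : Set (κ → ℤ)))) ?_ ?_ ?_ ?_ hy
      · intro y hy; exact Submodule.subset_span ⟨y, hy, rfl⟩
      · rw [castv_zero]; exact Submodule.zero_mem _
      · intro y z _ _ h1 h2; rw [castv_add]; exact Submodule.add_mem _ h1 h2
      · intro y _ h1; rw [castv_neg]; exact Submodule.neg_mem _ h1
    rw [eq_top_iff, ← (Pi.basisFun ℚ κ).span_eq, Submodule.span_le]
    rintro _ ⟨i, rfl⟩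
    have h3 := hcl _ (smul_of_index_ne_zero _ h (Pi.single i (1 : ℤ)))
    rw [castv_nsmul] at h3
    have h4 := Submodule.smul_mem _
      (((AddSubgroup.closure (X : Set (κ → ℤ))).index : ℚ)⁻¹) h3
    rw [smul_smul, inv_mul_cancel₀ (by exact_mod_cast h), one_smul] at h4
    have h5 : castv (Pi.single i (1 : ℤ) : κ → ℤ) = Pi.basisFun ℚ κ i := by
      funext j
      simp [castv, Pi.single_apply]
    rw [h5] at h4
    exact h4
  rw [hspan, finrank_top, Module.finrank_fintype_fun_eq_card] at hI
  have hIu : I = Finset.univ := Finset.eq_univ_of_card I hI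
  rw [hIu, Finset.card_univ] at h2
  exact h2

end

/-- The projection to the coordinates in `I`. -/
def prI {ι : Type} (I : Finset ι) : (ι → ℤ) →+ (I → ℤ) where
  toFun x j := x j
  map_zero' := rfl
  map_add' _ _ := rfl

/-- Finite index of the projection. -/
lemma prI_index_ne_zero {ι : Type} [Fintype ι] [DecidableEq ι] (L : AddSubgroup (ι → ℤ))
    (I : Finset ι) (hI : I.card = dm (LQ L)) (hinj : ∀ x ∈ LQ L, (∀ c ∈ I, x c = 0) → x = 0) :
    (L.map (prI I)).index ≠ 0 := by
  classical
  -- the linear projection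
  let π : (LQ L) →ₗ[ℚ] (I → ℚ) :=
    { toFun := fun x j => x.1 j
      map_add' := fun _ _ => rfl
      map_smul' := fun _ _ => rfl }
  have hπ : Function.Injective π := by
    rw [← LinearMap.ker_eq_bot, LinearMap.ker_eq_bot']
    rintro ⟨x, hx⟩ h0
    have := hinj x hx (fun c hc => congrFun h0 ⟨c, hc⟩)
    exact Subtype.ext this
  have hfin : Module.finrank ℚ (LQ L) = Module.finrank ℚ (I → ℚ) := by
    rw [Module.finrank_fintype_fun_eq_card, Fintype.card_coe]
    exact hI.symm
  have hsurj : Function.Surjective π :=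
    (LinearMap.injective_iff_surjective_of_finrank_eq_finrank hfin).mp hπ
  choose y hy using fun i : I => hsurj (Pi.single i 1)
  choose N hN l hl hNl using fun i : I => LQ_den L (y i).2
  have hsmul : ∀ i : I, N i • (Pi.single i (1 : ℤ) : I → ℤ) ∈ L.map (prI I) := by
    intro i
    refine ⟨l i, hl i, ?_⟩
    funext j
    have h1 := congrFun (hNl i) (j : ι)
    have h2 := congrFun (hy i) j
    have h3 : (y i).1 j = (Pi.single i (1 : ℚ) : I → ℚ) j := h2
    rw [Pi.smul_apply, h3, smul_eq_mul] at h1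
    change l i j = _
    have h4 : ((l i j : ℤ) : ℚ) = ((N i • (Pi.single i (1 : ℤ) : I → ℤ)) j : ℤ) := by
      change castv (l i) j = _
      rw [← h1]
      by_cases hij : j = i
      · subst hij; simp
      · simp [Pi.single_apply, hij]
    exact_mod_cast h4
  refine index_ne_zero_of_smul _ (∏ i, N i) (Finset.prod_pos fun i _ => hN i) ?_
  intro i
  obtain ⟨M, hM⟩ := Finset.dvd_prod_of_mem N (Finset.mem_univ i)
  rw [hM, mul_comm, mul_smul]
  exact AddSubgroup.nsmul_mem _ (hsmul i) _

/-- The projection is injective on the saturation. -/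
lemma prI_inj {ι : Type} (L : AddSubgroup (ι → ℤ)) (I : Finset ι)
    (hinj : ∀ x ∈ LQ L, (∀ c ∈ I, x c = 0) → x = 0) {x : ι → ℤ} (hx : x ∈ sat L)
    (h0 : prI I x = 0) : x = 0 := by
  have h1 := hinj (castv x) (castv_mem_LQ hx) (fun c hc => by
    have := congrFun h0 ⟨c, hc⟩
    change x c = 0 at this
    simp [castv, this])
  funext c
  have := congrFun h1 c
  simpa [castv] using this

/-- TOR -/
theorem tor : TorStmt := by
  intro ι _ _ X b hX L hL I hI hinj
  have hne := prI_index_ne_zero L I hI hinj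
  have hmap : L.map (prI I) = AddSubgroup.closure ((X.image (prI I) : Finset (I → ℤ)) :
      Set (I → ℤ)) := by
    rw [hL, AddMonoidHom.map_closure, Finset.coe_image]
  have hle : (L.map (prI I)).index ≤ I.card.factorial * ∏ c ∈ I, b c := by
    have h1 := index_le (X.image (prI I)) (fun j : I => b j) (by
      intro x hx i
      obtain ⟨y, hy, rfl⟩ := Finset.mem_image.mp hx
      exact hX y hy i) (by rw [← hmap]; exact hne)
    rw [← hmap, Fintype.card_coe] at h1
    have h2 : ∏ j : I, b j = ∏ c ∈ I, b c := Finset.prod_coe_sort I b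
    rw [h2] at h1
    exact h1
  -- the index divides
  have hcap : ((L.map (prI I)).comap (prI I)) ⊓ sat L ≤ L := by
    rintro y ⟨hy1, hy2⟩
    obtain ⟨u, hu, huy⟩ := hy1
    have h2 : y - u ∈ sat L := (sat L).sub_mem hy2 (le_sat L hu)
    have h3 : y - u = 0 := prI_inj L I hinj h2 (by rw [map_sub, huy, sub_self])
    rw [sub_eq_zero.mp h3]; exact hu
  have hdvd : L.relIndex (sat L) ∣ (L.map (prI I)).index := by
    have h1 : ((L.map (prI I)).comap (prI I)).index ∣ (L.map (prI I)).index := by
      rw [AddSubgroup.index_comap]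
      exact AddSubgroup.relIndex_dvd_index_of_normal _ _
    have h2 : ((L.map (prI I)).comap (prI I)).relIndex (sat L) ∣
        ((L.map (prI I)).comap (prI I)).index :=
      AddSubgroup.relIndex_dvd_index_of_normal _ _
    have h3 : L.relIndex (sat L) ∣ ((L.map (prI I)).comap (prI I)).relIndex (sat L) := by
      rw [← AddSubgroup.inf_relIndex_right ((L.map (prI I)).comap (prI I)) (sat L)]
      exact AddSubgroup.relIndex_dvd_of_le_left _ hcap
    exact h3.trans (h2.trans h1)
  constructor
  · intro h0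
    rw [h0] at hdvd
    exact hne (Nat.eq_zero_of_zero_dvd hdvd)
  · exact (Nat.le_of_dvd (Nat.pos_of_ne_zero hne) hdvd).trans hle

end Pool.Agent.SBG.H92
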