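import Pool.Agent.Helper92_SBG.Str2

namespace Pool.Agent.SBG.H92

open Pool.Agent.SBG Sy

lemma sum_wt (k σ : ℕ) : ∑ c : Ix k, (wtI c + σ) = 46 * k + 6 + σ * (19 * k + 3) := by
  have h1 : ∑ s : Sy, (s.wt + σ) = 46 + 19 * σ := by
    have h2 : ∑ s : Sy, s.wt = 46 := by decide
    have h3 : Fintype.card Sy = 19 := by decide
    rw [Finset.sum_add_distrib, h2, Finset.sum_const, Finset.card_univ, h3, smul_eq_mul]
  rw [Fintype.sum_sum_type, Fintype.sum_prod_type]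
  have h3 : ∑ i : Fin k, ∑ s : Sy, ((wtI (Sum.inl (i, s) : Ix k)) + σ) = (46 + 19 * σ) * k := by
    calc ∑ i : Fin k, ∑ s : Sy, ((wtI (Sum.inl (i, s) : Ix k)) + σ)
        = ∑ _i : Fin k, (46 + 19 * σ) := Finset.sum_congr rfl fun i _ => h1
      _ = (46 + 19 * σ) * k := by simp [mul_comm]
  have h4 : ∑ j : Fin 3, ((wtI (Sum.inr j : Ix k)) + σ) = 6 + 3 * σ := by
    simp only [wtI, Fin.sum_univ_three]
    change (0 + 1 + σ) + (1 + 1 + σ) + (2 + 1 + σ) = 6 + 3 * σ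
    ring
  rw [h3, h4]
  ring

/-- CRU -/
theorem cru (htor : TorStmt) (hgrd : GrdStmt) : CruStmt := by
  classical
  intro k A σ
  refine ⟨(Fintype.card (Ix k)).factorial * (A + 1) ^ (Fintype.card (Ix k)), ?_⟩
  intro n hn X hX
  set L := AddSubgroup.closure (X : Set (V k)) with hL
  obtain ⟨I, hI, hinj, -⟩ := hgrd (Ix k) (LQ L) (fun _ => 0)
  obtain ⟨h1, h2⟩ := htor (Ix k) X (fun c => A * n ^ (wtI c + σ)) (by
    intro x hx c
    have := hX x hx c
    push_cast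
    exact this) L hL I hI hinj
  refine ⟨h1, h2.trans ?_⟩
  have hIc : I.card ≤ Fintype.card (Ix k) := Finset.card_le_univ I
  have h3 : ∏ c ∈ I, A * n ^ (wtI c + σ) ≤ ∏ c : Ix k, (A + 1) * n ^ (wtI c + σ) := by
    calc ∏ c ∈ I, A * n ^ (wtI c + σ) ≤ ∏ c ∈ I, (A + 1) * n ^ (wtI c + σ) :=
          Finset.prod_le_prod' fun c _ => Nat.mul_le_mul_right _ (Nat.le_succ A)
      _ ≤ ∏ c : Ix k, (A + 1) * n ^ (wtI c + σ) := by
          refine Finset.prod_le_prod_of_subset_of_one_le' (Finset.subset_univ I) fun c _ _ => ?_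
          exact Nat.mul_pos (Nat.succ_pos A) (pow_pos hn _)
  calc I.card.factorial * ∏ c ∈ I, A * n ^ (wtI c + σ)
      ≤ (Fintype.card (Ix k)).factorial * ∏ c : Ix k, (A + 1) * n ^ (wtI c + σ) :=
        Nat.mul_le_mul (Nat.factorial_le hIc) h3
    _ = (Fintype.card (Ix k)).factorial * (A + 1) ^ (Fintype.card (Ix k)) *
        n ^ (46 * k + 6 + σ * (19 * k + 3)) := by
        rw [Finset.prod_mul_distrib, Finset.prod_const, Finset.card_univ,
          Finset.prod_pow_eq_pow_sum, sum_wt, mul_assoc]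

end Pool.Agent.SBG.H92
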