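import Pool.Agent.Helper92_SBG.Rd

namespace Pool.Agent.SBG.H92

open Pool.Agent.SBG

/-- The key estimate: `(D ε) ^ 2 ≤ C n ^ (68 k + 23)` for `δ ≤ 4`. -/
lemma reg_aux (k C₀ n δ T l0 l1 : ℕ) (hk : 100 ≤ k) (hn : 1 ≤ n) (hl1 : 0 < l1) (hδ : δ ≤ 4)
    (hm : T * n ^ δ ≤ C₀ * n ^ (34 * k + 11) * max l0 l1)
    (ha : T * l1 ^ (2 * (k - 2 * δ)) ≤ C₀ * n ^ (34 * k + 11 + 3 * δ) * max l0 l1)
    (hc : l0 ≠ 0 → T * l0 ^ (2 * (k - 2 * δ)) ≤ C₀ * n ^ (35 * k + 11 + 3 * δ) * max l0 l1) :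
    T ^ 2 ≤ C₀ ^ 2 * n ^ (68 * k + 23) := by
  set M := max l0 l1 with hM
  have hM1 : 1 ≤ M := le_trans (Nat.succ_le_of_lt hl1) (le_max_right _ _)
  have hn0 : 0 < n := hn
  have mono : ∀ a b : ℕ, a ≤ b → n ^ a ≤ n ^ b := fun a b h => Nat.pow_le_pow_right hn0 h
  -- first inequality, squared
  have hm2 : T ^ 2 * n ^ (2 * δ) ≤ C₀ ^ 2 * n ^ (68 * k + 22) * M ^ 2 := by
    have := Nat.pow_le_pow_left hm 2
    calc T ^ 2 * n ^ (2 * δ) = (T * n ^ δ) ^ 2 := by rw [mul_pow, ← pow_mul, mul_comm δ 2]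
      _ ≤ (C₀ * n ^ (34 * k + 11) * M) ^ 2 := this
      _ = C₀ ^ 2 * n ^ (68 * k + 22) * M ^ 2 := by
          rw [mul_pow, mul_pow, ← pow_mul]; congr 3; ring
  -- small M
  have small : M ^ 2 ≤ n ^ (1 + 2 * δ) → T ^ 2 ≤ C₀ ^ 2 * n ^ (68 * k + 23) := by
    intro h
    have h1 : T ^ 2 * n ^ (2 * δ) ≤ (C₀ ^ 2 * n ^ (68 * k + 23)) * n ^ (2 * δ) := by
      calc T ^ 2 * n ^ (2 * δ) ≤ C₀ ^ 2 * n ^ (68 * k + 22) * M ^ 2 := hm2
        _ ≤ C₀ ^ 2 * n ^ (68 * k + 22) * n ^ (1 + 2 * δ) := Nat.mul_le_mul_left _ h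
        _ = (C₀ ^ 2 * n ^ (68 * k + 23)) * n ^ (2 * δ) := by
            rw [mul_assoc, ← pow_add, mul_assoc, ← pow_add]; congr 2; ring
    exact Nat.le_of_mul_le_mul_right h1 (pow_pos hn0 _)
  -- general principle for large `M`
  have large : ∀ (l e : ℕ), l = M → T * l ^ (2 * (k - 2 * δ)) ≤ C₀ * n ^ (e + 3 * δ) * M →
      2 * e + 6 * δ ≤ 70 * k + 46 → (n ^ (1 + 2 * δ) ≤ M ^ 2) →
      (2 * e + 6 * δ ≤ 68 * k + 23 + (1 + 2 * δ) * (2 * (k - 2 * δ) - 1)) →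
      T ^ 2 ≤ C₀ ^ 2 * n ^ (68 * k + 23) := by
    intro l e hl h _ hMn he
    rw [hl] at h
    set N := 2 * (k - 2 * δ) - 1 with hN
    have hN1 : 2 * (k - 2 * δ) = N + 1 := by omega
    rw [hN1, pow_succ, ← mul_assoc] at h
    have h1 : T * M ^ N ≤ C₀ * n ^ (e + 3 * δ) := Nat.le_of_mul_le_mul_right h hM1
    have h2 : T ^ 2 * (M ^ 2) ^ N ≤ C₀ ^ 2 * n ^ (2 * e + 6 * δ) := by
      have := Nat.pow_le_pow_left h1 2
      calc T ^ 2 * (M ^ 2) ^ N = (T * M ^ N) ^ 2 := by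
            rw [mul_pow, ← pow_mul, ← pow_mul, mul_comm 2 N]
        _ ≤ (C₀ * n ^ (e + 3 * δ)) ^ 2 := this
        _ = C₀ ^ 2 * n ^ (2 * e + 6 * δ) := by
            rw [mul_pow, ← pow_mul]; congr 2; ring
    have h3 : (n ^ (1 + 2 * δ)) ^ N ≤ (M ^ 2) ^ N := Nat.pow_le_pow_left hMn N
    have h4 : T ^ 2 * n ^ ((1 + 2 * δ) * N) ≤
        (C₀ ^ 2 * n ^ (68 * k + 23)) * n ^ ((1 + 2 * δ) * N) := by
      calc T ^ 2 * n ^ ((1 + 2 * δ) * N) = T ^ 2 * (n ^ (1 + 2 * δ)) ^ N := by rw [← pow_mul]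
        _ ≤ T ^ 2 * (M ^ 2) ^ N := Nat.mul_le_mul_left _ h3
        _ ≤ C₀ ^ 2 * n ^ (2 * e + 6 * δ) := h2
        _ ≤ C₀ ^ 2 * n ^ (68 * k + 23 + (1 + 2 * δ) * N) := Nat.mul_le_mul_left _ (mono _ _ he)
        _ = (C₀ ^ 2 * n ^ (68 * k + 23)) * n ^ ((1 + 2 * δ) * N) := by rw [pow_add, mul_assoc]
    exact Nat.le_of_mul_le_mul_right h4 (pow_pos hn0 _)
  by_cases hs : M ^ 2 ≤ n ^ (1 + 2 * δ)
  · exact small hs
  · have hs' : n ^ (1 + 2 * δ) ≤ M ^ 2 := (not_le.mp hs).le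
    have num : 2 * (35 * k + 11) + 6 * δ ≤ 68 * k + 23 + (1 + 2 * δ) * (2 * (k - 2 * δ) - 1) := by
      interval_cases δ <;> omega
    rcases le_total l0 l1 with h | h
    · have hMl : l1 = M := by rw [hM, max_eq_right h]
      exact large l1 (34 * k + 11) hMl ha (by omega) hs' (by omega)
    · have hMl : l0 = M := by rw [hM, max_eq_left h]
      have hl0 : l0 ≠ 0 := by rw [hMl]; exact Nat.one_le_iff_ne_zero.mp hM1
      exact large l0 (35 * k + 11) hMl (hc hl0) (by omega) hs' num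

/-- REG -/
theorem reg : RegStmt := by
  intro k C₀ hk
  refine ⟨(C₀ + 1) ^ (4 * (16 * k + 5)), ?_⟩
  intro n hn δ D ε g l0 l1 hε hl1 hm ha hc hg hR
  have hn0 : 0 < n := hn
  set M := max l0 l1 with hM
  have hM1 : 1 ≤ M := le_trans (Nat.succ_le_of_lt hl1) (le_max_right _ _)
  -- it is enough to bound a product `U` with `(g D) ^ (16 k + 5) ε ^ 5 ≤ U ^ (16 k + 5)`
  have key : ∀ U : ℕ, (g * D) ^ (16 * k + 5) * ε ^ 5 ≤ U ^ (16 * k + 5) →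
      U ^ 2 ≤ (C₀ + 1) ^ 4 * n ^ (68 * k + 23) →
      ((g * D) ^ (16 * k + 5) * ε ^ 5) ^ 2 ≤
        (C₀ + 1) ^ (4 * (16 * k + 5)) * n ^ ((68 * k + 23) * (16 * k + 5)) := by
    intro U h1 h2
    calc ((g * D) ^ (16 * k + 5) * ε ^ 5) ^ 2 ≤ (U ^ (16 * k + 5)) ^ 2 :=
          Nat.pow_le_pow_left h1 2
      _ = (U ^ 2) ^ (16 * k + 5) := by rw [← pow_mul, ← pow_mul, mul_comm]
      _ ≤ ((C₀ + 1) ^ 4 * n ^ (68 * k + 23)) ^ (16 * k + 5) := Nat.pow_le_pow_left h2 _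
      _ = (C₀ + 1) ^ (4 * (16 * k + 5)) * n ^ ((68 * k + 23) * (16 * k + 5)) := by
          rw [mul_pow, ← pow_mul, ← pow_mul]
  have hC : C₀ ≤ C₀ + 1 := Nat.le_succ _
  by_cases hδ : δ ≤ 4
  · refine key (D * ε) ?_ ?_
    · have hg2 : g ^ 2 ≤ ε := Nat.le_of_dvd hε (hR hδ)
      have h1 : g ^ (16 * k + 5) ≤ ε ^ (16 * k) := by
        rcases Nat.eq_zero_or_pos g with h0 | h0
        · rw [h0, zero_pow (by omega)]; exact Nat.zero_le _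
        · calc g ^ (16 * k + 5) ≤ g ^ (2 * (16 * k)) := Nat.pow_le_pow_right h0 (by omega)
            _ = (g ^ 2) ^ (16 * k) := by rw [pow_mul]
            _ ≤ ε ^ (16 * k) := Nat.pow_le_pow_left hg2 _
      calc (g * D) ^ (16 * k + 5) * ε ^ 5 = g ^ (16 * k + 5) * (D ^ (16 * k + 5) * ε ^ 5) := by
            rw [mul_pow]; ring
        _ ≤ ε ^ (16 * k) * (D ^ (16 * k + 5) * ε ^ 5) := Nat.mul_le_mul_right _ h1
        _ = (D * ε) ^ (16 * k + 5) := by rw [mul_pow, pow_add ε]; ring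
    · have h1 := reg_aux k C₀ n δ (D * ε) l0 l1 hk hn hl1 hδ hm ha hc
      refine h1.trans (Nat.mul_le_mul_right _ ?_)
      calc C₀ ^ 2 ≤ (C₀ + 1) ^ 2 := Nat.pow_le_pow_left hC 2
        _ ≤ (C₀ + 1) ^ 4 := Nat.pow_le_pow_right (Nat.succ_pos _) (by norm_num)
  · refine key (g * D * ε) ?_ ?_
    · calc (g * D) ^ (16 * k + 5) * ε ^ 5 ≤ (g * D) ^ (16 * k + 5) * ε ^ (16 * k + 5) :=
            Nat.mul_le_mul_left _ (Nat.pow_le_pow_right hε (by omega))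
        _ = (g * D * ε) ^ (16 * k + 5) := by rw [← mul_pow]
    · have h1 : (g * D * ε) * n ^ 5 ≤ (C₀ ^ 2 * n ^ (34 * k + 11)) * n ^ 5 := by
        calc (g * D * ε) * n ^ 5 ≤ (g * D * ε) * n ^ δ :=
              Nat.mul_le_mul_left _ (Nat.pow_le_pow_right hn0 (by omega))
          _ = g * (D * ε * n ^ δ) := by ring
          _ ≤ g * (C₀ * n ^ (34 * k + 11) * M) := Nat.mul_le_mul_left _ hm
          _ = C₀ * n ^ (34 * k + 11) * (g * M) := by ring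
          _ ≤ C₀ * n ^ (34 * k + 11) * (C₀ * n ^ 5) := Nat.mul_le_mul_left _ hg
          _ = (C₀ ^ 2 * n ^ (34 * k + 11)) * n ^ 5 := by ring
      have h2 : g * D * ε ≤ C₀ ^ 2 * n ^ (34 * k + 11) :=
        Nat.le_of_mul_le_mul_right h1 (pow_pos hn0 _)
      calc (g * D * ε) ^ 2 ≤ (C₀ ^ 2 * n ^ (34 * k + 11)) ^ 2 := Nat.pow_le_pow_left h2 2
        _ = C₀ ^ 4 * n ^ (68 * k + 22) := by
            rw [mul_pow, ← pow_mul, ← pow_mul]; congr 2; ring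
        _ ≤ (C₀ + 1) ^ 4 * n ^ (68 * k + 23) :=
            Nat.mul_le_mul (Nat.pow_le_pow_left hC 4) (Nat.pow_le_pow_right hn0 (by omega))

end Pool.Agent.SBG.H92
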