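import Pool.Agent.Helper92_SBG.Fin2
import Pool.Agent.Helper92_SBG.Reg
import Pool.Agent.Helper92_SBG.Cru
import Pool.Agent.Helper90_SBG.Bfs
import Pool.Agent.Helper21_SBG.Bxl
import Pool.Agent.Helper21_SBG.Lwa
import Pool.Agent.Helper91_SBG.Bxu
import Pool.Agent.Helper91_SBG.Pwr
import Pool.Agent.Helper43_SBG.Ca0
import Pool.Agent.Helper43_SBG.Sep
import Pool.Agent.Helper17_SBG.Ca1
import Pool.Agent.Helper46_SBG.Cbz
import Pool.Agent.Helper35_SBG.Csa
import Pool.Agent.Helper35_SBG.Ca2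
import Pool.Agent.Helper28_SBG.Csb
import Pool.Agent.Helper69_SBG.Fsz
import Pool.Agent.Helper69_SBG.Hmg
import Pool.Agent.Helper69_SBG.Siz
import Pool.Agent.Helper81_SBG.Grd
import Pool.Agent.Helper81_SBG.Is0
import Pool.Agent.Helper85_SBG.Iso
import Pool.Agent.Helper85_SBG.Sp2
import Pool.Agent.Helper76_SBG.Lat
import Pool.Agent.Helper67_SBG.LWB
import Pool.Agent.Helper5_SBG.Lwc
import Pool.Agent.Helper11_SBG.Nil
import Pool.Agent.Helper65_SBG.Tis
import Pool.Agent.Helper29_SBG.Wgt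
import Pool.Agent.Helper51_SBG.Kpl
import Pool.Agent.Helper32_SBG.CHI
import Pool.Agent.Helper32_SBG.FCH
import Pool.Agent.Helper32_SBG.VSP
import Pool.Agent.Helper89_SBG.La0
import Pool.Agent.Helper41_SBG.IDX
import Pool.Agent.Helper41_SBG.RPA
import Pool.Agent.Helper41_SBG.RPB

/-!
Assembly of the proof of the negative answer to Q1 of MP_02cd89_al.
-/

namespace Pool.Agent.SBG.H92

open Pool.Agent.SBG

theorem fch : FchStmt := H32.fch
theorem chi : ChiStmt := H32.chi fch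
theorem sp2 : Sp2Stmt := H85.sp2 H91.pwr
theorem sep : SepStmt := H43.sep sp2 fch
theorem vsp : VspStmt := H32.vsp sp2
theorem idx : IdxStmt := H41.idx
theorem grd : GrdStmt := H81.grd
theorem cru' : CruStmt := cru tor grd
theorem kpl : KplStmt := H51.kpl tdt
theorem wgt : WgtStmt := H29.wgt grd H85.iso
theorem wg0 : Wg0Stmt := H29.wg0 grd H85.iso H81.is0 H65.tis
theorem lat : LatStmt := H76.lat str wgt
theorem la0 : La0Stmt := H89.la0 str wg0
theorem ca2 : Ca2Stmt := H35.ca2 chi sep idx cru'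
theorem ca0 : Ca0Stmt := H43C.ca0 chi sep idx cru' tor wg0
theorem rpb : RpbStmt := H41.rpb H41.rpa
theorem ca1 : Ca1Stmt := H17.ca1 chi sep idx cru' lat la0 rpb reg
theorem csa : CsaStmt := H35.csa chi vsp cru' ca0 ca1 ca2
theorem cbz : CbzStmt := H46.cbz kpl cru' H69.hmg H69.fsz
theorem csb : CsbStmt := H28.csb H90.bfs H69.siz H69.hmg cbz chi sep vsp idx cru'
theorem upb' : UpbStmt := upb H91.bxu csa csb
theorem lwc : LwcStmt := H5.lwc H21.bxl H21.lwa H67.lwb

/-- The final theorem. -/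
theorem final : ∃ (G : Type) (_ : Group G), Group.FG G ∧ Group.IsNilpotent G ∧
    (∀ (g : G) (n : ℕ), 0 < n → g ^ n = 1 → g = 1) ∧
    ∀ S : Finset G, Subgroup.closure (S : Set G) = ⊤ →
      Equ (fun n => Sub (S : Set G) n ^ 2) (fun n => (n : ℕ∞) ^ 10950915) ∧
      ∀ K : ℕ, ¬ Equ (Sub (S : Set G)) (fun n => (n : ℕ∞) ^ K) :=
  ⟨Gp 100, inferInstance, (H11.nil 100).2.2, (H11.nil 100).1, (H11.nil 100).2.1, fun S hS =>
    ⟨growth lwc upb' S hS, notEqu lwc upb' S hS⟩⟩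

end Pool.Agent.SBG.H92
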