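import Pool.Agent.Helper92_SBG.Defs

/-!
Basic facts on the groups `Gp k`, and the auxiliary definitions of the proof.
-/

namespace Pool.Agent.SBG

open Sy

section

variable {k : ℕ}

lemma Gp.mul0 (x y : W k) : (⟨0, x⟩ : Gp k) * ⟨0, y⟩ = ⟨0, x + y + Bf x y⟩ := by
  apply Gp.ext
  · simp
  · simp [tp_zero]

lemma Gp.inv0 (x : W k) : (⟨0, x⟩ : Gp k)⁻¹ = ⟨0, -x⟩ := by
  apply Gp.ext
  · simp
  · simp [tp_zero]

lemma Gp.one_def : (1 : Gp k) = ⟨0, 0⟩ := rfl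

lemma Gp.pow0 (x : W k) (n : ℕ) : (⟨0, x⟩ : Gp k) ^ n = ⟨0, n • x⟩ := by
  induction n with
  | zero => simp [Gp.one_def]
  | succ n ih => rw [pow_succ, ih, Gp.mul0, Bf_nsmul_left, Bf_self, smul_zero, add_zero, succ_nsmul]

lemma Gp.zpow0 (x : W k) (n : ℤ) : (⟨0, x⟩ : Gp k) ^ n = ⟨0, n • x⟩ := by
  cases n with
  | ofNat n => simpa using Gp.pow0 x n
  | negSucc n =>
    rw [zpow_negSucc, Gp.pow0, Gp.inv0, negSucc_zsmul]

lemma Gp.eta0 {g : Gp k} (h : g.m = 0) : g = ⟨0, g.x⟩ := Gp.ext h rfl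

/-- Conjugation of an element of the normal subgroup `m = 0`. -/
lemma Gp.conj0 (g : Gp k) (y : W k) :
    g * ⟨0, y⟩ * g⁻¹ = ⟨0, tp g.m y + 2 • Bf g.x (tp g.m y)⟩ := by
  apply Gp.ext
  · simp
  · simp only [Gp.mul_x, Gp.mul_m, Gp.inv_x, map_neg, Bf_neg_right, add_zero, Bf_add_left,
      tp_tp_neg, Bf_self, Bf_Bf_left]
    rw [Bf_swap g.x (tp g.m y)]
    abel

/-- Commutators of elements with `m = 0`. -/
lemma Gp.comm0 (x y : W k) : (⟨0, x⟩ : Gp k) * ⟨0, y⟩ * (⟨0, x⟩ : Gp k)⁻¹ * (⟨0, y⟩ : Gp k)⁻¹ =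
    ⟨0, 2 • Bf x y⟩ := by
  rw [Gp.conj0, Gp.inv0, Gp.mul0]
  simp only [tp_zero, Bf_neg_right, Bf_add_left, Bf_self, zero_add, Bf_nsmul_left, Bf_Bf_left,
    smul_zero]
  have h : y + 2 • Bf x y + -y + -0 = 2 • Bf x y := by abel
  rw [h]

/-- The expansion of `T ^ m`. -/
def Fx (m : ℤ) (x : W k) : W k :=
  x + Ring.choose m 1 • Dn x + Ring.choose m 2 • Dn (Dn x) + Ring.choose m 3 • Dn (Dn (Dn x))

lemma Fx_succ (m : ℤ) (x : W k) : Fx (m + 1) x = Fx m (x + Dn x) := by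
  have h0 : Ring.choose m 0 = 1 := Ring.choose_zero_right m
  have h1 : Ring.choose (m + 1) 1 = Ring.choose m 0 + Ring.choose m 1 := Ring.choose_succ_succ m 0
  have h2 : Ring.choose (m + 1) 2 = Ring.choose m 1 + Ring.choose m 2 := Ring.choose_succ_succ m 1
  have h3 : Ring.choose (m + 1) 3 = Ring.choose m 2 + Ring.choose m 3 := Ring.choose_succ_succ m 2
  simp only [Fx, h1, h2, h3, h0, Dn_add, Dn_four, add_smul, smul_add, one_smul, smul_zero]
  abel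

/-- `T ^ m = ∑ binom(m, l) D ^ l`. -/
theorem tp_expand (m : ℤ) (x : W k) : tp m x = Fx m x := by
  induction m generalizing x with
  | zero => simp [tp_zero, Fx]
  | succ m ih => rw [tp_add, ih, tp_one, ← Fx_succ]
  | pred m ih =>
    have e : -(m : ℤ) - 1 = -(m : ℤ) + (-1) := by ring
    rw [e, tp_add, ih]
    have h : x = tp (-1) x + Dn (tp (-1) x) := by rw [← tp_one, tp_tp_neg]
    have h2 := Fx_succ (-(m : ℤ) + (-1)) (tp (-1) x)
    rw [← h] at h2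
    rw [← h2]
    congr 1
    ring

lemma abs_choose_one (m : ℤ) (A : ℤ) (h : |m| ≤ A) : |Ring.choose m 1| ≤ A := by
  rwa [Ring.choose_one_right]

lemma two_choose (m : ℤ) : 2 * Ring.choose m 2 = m * (m - 1) := by
  have key : ∀ m : ℤ, 2 * Ring.choose (m + 1) 2 = 2 * m + 2 * Ring.choose m 2 := fun m => by
    have h : Ring.choose (m + 1) 2 = Ring.choose m 1 + Ring.choose m 2 := Ring.choose_succ_succ m 1
    rw [h, Ring.choose_one_right]; ring
  induction m with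
  | zero => simp
  | succ m ih => rw [key, ih]; ring
  | pred m ih =>
    have := key (-(m : ℤ) - 1)
    rw [sub_add_cancel, ih] at this
    linarith

lemma six_choose (m : ℤ) : 6 * Ring.choose m 3 = m * (m - 1) * (m - 2) := by
  have key : ∀ m : ℤ, 6 * Ring.choose (m + 1) 3 = 3 * (m * (m - 1)) + 6 * Ring.choose m 3 :=
    fun m => by
    have h : Ring.choose (m + 1) 3 = Ring.choose m 2 + Ring.choose m 3 := Ring.choose_succ_succ m 2
    have h2 := two_choose m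
    rw [h]; linarith
  induction m with
  | zero => simp
  | succ m ih => rw [key, ih]; ring
  | pred m ih =>
    have := key (-(m : ℤ) - 1)
    rw [sub_add_cancel, ih] at this
    linarith

lemma abs_choose_two (m A : ℤ) (h : |m| ≤ A) : |Ring.choose m 2| ≤ A ^ 2 := by
  have h2 := two_choose m
  rcases eq_or_ne m 0 with rfl | hm
  · simp; positivity
  have h1 : 1 ≤ |m| := Int.one_le_abs hm
  have h3 : |m - 1| ≤ 2 * |m| := by
    calc |m - 1| ≤ |m| + |(1 : ℤ)| := abs_sub m 1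
      _ ≤ 2 * |m| := by rw [abs_one]; linarith
  have h4 : 2 * |Ring.choose m 2| ≤ 2 * |m| ^ 2 := by
    have : |2 * Ring.choose m 2| = |m| * |m - 1| := by rw [h2, abs_mul]
    rw [abs_mul, abs_two] at this
    rw [this, pow_two]
    nlinarith [abs_nonneg m]
  have h5 : |m| ^ 2 ≤ A ^ 2 := pow_le_pow_left₀ (abs_nonneg _) h 2
  linarith

lemma abs_choose_three (m A : ℤ) (h : |m| ≤ A) : |Ring.choose m 3| ≤ A ^ 3 := by
  have h2 := six_choose m
  rcases eq_or_ne m 0 with rfl | hm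
  · have hA : 0 ≤ A := (abs_nonneg _).trans h
    simp; positivity
  have h1 : 1 ≤ |m| := Int.one_le_abs hm
  have h3 : |m - 1| ≤ 2 * |m| := by
    calc |m - 1| ≤ |m| + |(1 : ℤ)| := abs_sub m 1
      _ ≤ 2 * |m| := by rw [abs_one]; linarith
  have h3' : |m - 2| ≤ 3 * |m| := by
    calc |m - 2| ≤ |m| + |(2 : ℤ)| := abs_sub m 2
      _ ≤ 3 * |m| := by rw [abs_two]; linarith
  have h4 : 6 * |Ring.choose m 3| ≤ 6 * |m| ^ 3 := by
    have : |6 * Ring.choose m 3| = |m| * |m - 1| * |m - 2| := by rw [h2, abs_mul, abs_mul]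
    rw [abs_mul] at this
    have h6 : |(6 : ℤ)| = 6 := rfl
    rw [h6] at this
    rw [this]
    have e : 6 * |m| ^ 3 = |m| * (2 * |m|) * (3 * |m|) := by ring
    rw [e]
    have := abs_nonneg m
    exact mul_le_mul (mul_le_mul_of_nonneg_left h3 this) h3' (abs_nonneg _) (by positivity)
  have h5 : |m| ^ 3 ≤ A ^ 3 := pow_le_pow_left₀ (abs_nonneg _) h 3
  linarith

/-- The operator `D` raises weights. -/
lemma Dn_bound {n : ℕ} (hn : 1 ≤ n) (x : W k) (Y : ℤ) (hY : 0 ≤ Y)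
    (h : ∀ c : Ix k, |x (Sum.inl c)| ≤ Y * (n : ℤ) ^ (wtI c)) :
    (∀ c : Ix k, (n : ℤ) * |Dn x (Sum.inl c)| ≤ 3 * Y * (n : ℤ) ^ (wtI c)) ∧
    ∀ j, (n : ℤ) * |Dn x (Sum.inr j)| ≤ Y * (n : ℤ) ^ 4 := by
  have hn1 : (1 : ℤ) ≤ n := by exact_mod_cast hn
  have hn0 : (0 : ℤ) ≤ n := by linarith
  have p1 : (n : ℤ) ≤ (n : ℤ) ^ 2 := by nlinarith
  have p2 : (n : ℤ) ^ 2 ≤ (n : ℤ) ^ 3 := by nlinarith [sq_nonneg (n : ℤ)]
  have p3 : (n : ℤ) ^ 3 ≤ (n : ℤ) ^ 4 := pow_le_pow_right₀ hn1 (by norm_num)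
  have key : ∀ (z z' : ℤ) (e e' : ℕ), |z| ≤ Y * (n : ℤ) ^ e → (n : ℤ) ^ (e + 1) ≤ (n : ℤ) ^ e' →
      (n : ℤ) * |z| ≤ Y * (n : ℤ) ^ e' := by
    intro z z' e e' h1 h2
    calc (n : ℤ) * |z| ≤ n * (Y * (n : ℤ) ^ e) := mul_le_mul_of_nonneg_left h1 hn0
      _ = Y * (n : ℤ) ^ (e + 1) := by ring
      _ ≤ Y * (n : ℤ) ^ e' := mul_le_mul_of_nonneg_left h2 hY
  have ks : ∀ (i : Fin k) (s : Sy) (e : ℕ), s.wt + 1 ≤ e →
      (n : ℤ) * |x (Sum.inl (Sum.inl (i, s)))| ≤ Y * (n : ℤ) ^ e := by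
    intro i s e he
    exact key _ 0 s.wt e (h (Sum.inl (i, s))) (pow_le_pow_right₀ hn1 he)
  have hY3 : ∀ e : ℕ, 0 ≤ Y * (n : ℤ) ^ e := fun e => by positivity
  have one : ∀ (z : ℤ) (e : ℕ), (n : ℤ) * |z| ≤ Y * (n : ℤ) ^ e →
      (n : ℤ) * |z| ≤ 3 * Y * (n : ℤ) ^ e := by
    intro z e h1; nlinarith [hY3 e]
  have three : ∀ (z1 z2 z3 z : ℤ) (e : ℕ), |z| ≤ |z1| + |z2| + |z3| →
      (n : ℤ) * |z1| ≤ Y * (n : ℤ) ^ e → (n : ℤ) * |z2| ≤ Y * (n : ℤ) ^ e →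
      (n : ℤ) * |z3| ≤ Y * (n : ℤ) ^ e → (n : ℤ) * |z| ≤ 3 * Y * (n : ℤ) ^ e := by
    intro z1 z2 z3 z e h0 h1 h2 h3
    have := mul_le_mul_of_nonneg_left h0 hn0
    nlinarith
  have zr : ∀ e : ℕ, (n : ℤ) * |(0 : ℤ)| ≤ Y * (n : ℤ) ^ e := fun e => by
    rw [abs_zero, mul_zero]; exact hY3 e
  constructor
  · intro c
    rcases c with ⟨i, s⟩ | j
    · cases s
      · refine three _ _ 0 _ _ ?_ (ks i a3 3 (by decide)) (ks i a2 3 (by decide)) (zr _)
        simp only [Dn, DSy, abs_zero, add_zero]; exact abs_sub _ _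
      · refine three _ 0 0 _ _ ?_ (ks i a3 2 (by decide)) (zr _) (zr _)
        simp only [Dn, DSy, abs_zero, add_zero, abs_neg]; exact le_rfl
      · refine three 0 0 0 _ _ ?_ (zr _) (zr _) (zr _)
        simp only [Dn, DSy, abs_zero, add_zero]; exact le_rfl
      · refine three _ _ _ _ _ ?_ (ks i b2 4 (by decide)) (ks i b3 4 (by decide))
          (ks i qb 4 (by decide))
        simp only [Dn, DSy]
        refine (abs_add_le _ _).trans (add_le_add_left ((abs_add_le _ _).trans ?_) _)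
        rw [abs_neg]
      · refine three _ _ 0 _ _ ?_ (ks i b3 3 (by decide)) (ks i qb 3 (by decide)) (zr _)
        simp only [Dn, DSy, abs_zero, add_zero]
        refine (abs_sub _ _).trans ?_
        rw [abs_neg]
      · refine three _ 0 0 _ _ ?_ (ks i qb 2 (by decide)) (zr _) (zr _)
        simp only [Dn, DSy, abs_zero, add_zero]; exact le_rfl
      · refine three _ _ _ _ _ ?_ (ks i c2 4 (by decide)) (ks i c3 4 (by decide))
          (ks i qc 4 (by decide))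
        simp only [Dn, DSy]
        refine (abs_add_le _ _).trans (add_le_add_left ((abs_add_le _ _).trans ?_) _)
        rw [abs_neg]
      · refine three _ _ 0 _ _ ?_ (ks i c3 3 (by decide)) (ks i qc 3 (by decide)) (zr _)
        simp only [Dn, DSy, abs_zero, add_zero]
        refine (abs_sub _ _).trans ?_
        rw [abs_neg]
      · refine three _ 0 0 _ _ ?_ (ks i qc 2 (by decide)) (zr _) (zr _)
        simp only [Dn, DSy, abs_zero, add_zero]; exact le_rfl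
      · refine three 0 0 0 _ _ ?_ (zr _) (zr _) (zr _)
        simp only [Dn, DSy, abs_zero, add_zero]; exact le_rfl
      · refine three _ 0 0 _ _ ?_ (ks i u1 2 (by decide)) (zr _) (zr _)
        simp only [Dn, DSy, abs_zero, add_zero]; exact le_rfl
      · refine three _ 0 0 _ _ ?_ (ks i u2 3 (by decide)) (zr _) (zr _)
        simp only [Dn, DSy, abs_zero, add_zero]; exact le_rfl
      · refine three 0 0 0 _ _ ?_ (zr _) (zr _) (zr _)
        simp only [Dn, DSy, abs_zero, add_zero]; exact le_rfl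
      · refine three _ 0 0 _ _ ?_ (ks i v1 2 (by decide)) (zr _) (zr _)
        simp only [Dn, DSy, abs_zero, add_zero]; exact le_rfl
      · refine three _ 0 0 _ _ ?_ (ks i v2 3 (by decide)) (zr _) (zr _)
        simp only [Dn, DSy, abs_zero, add_zero]; exact le_rfl
      · refine three _ 0 0 _ _ ?_ (ks i u3 4 (by decide)) (zr _) (zr _)
        simp only [Dn, DSy, abs_zero, add_zero]; exact le_rfl
      · refine three _ 0 0 _ _ ?_ (ks i v3 4 (by decide)) (zr _) (zr _)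
        simp only [Dn, DSy, abs_zero, add_zero]; exact le_rfl
      · refine three 0 0 0 _ _ ?_ (zr _) (zr _) (zr _)
        simp only [Dn, DSy, abs_zero, add_zero]; exact le_rfl
      · refine three 0 0 0 _ _ ?_ (zr _) (zr _) (zr _)
        simp only [Dn, DSy, abs_zero, add_zero]; exact le_rfl
    · fin_cases j
      · exact three 0 0 0 _ _ (by simp [Dn]) (zr _) (zr _) (zr _)
      · exact three _ 0 0 _ _ (by simp [Dn]) (key _ 0 1 2 (h (Sum.inr 0)) le_rfl) (zr _) (zr _)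
      · exact three _ 0 0 _ _ (by simp [Dn]) (key _ 0 2 3 (h (Sum.inr 1)) le_rfl) (zr _) (zr _)
  · intro j
    fin_cases j
    · simpa [Dn] using hY3 4
    · exact key _ 0 3 4 (h (Sum.inr 2)) le_rfl

/-- Sizes of the coordinates of `T ^ m x`. -/
theorem tp_bound {n : ℕ} (hn : 1 ≤ n) (x : W k) (Y A : ℤ) (hY : 0 ≤ Y) (hA : 1 ≤ A)
    (h : ∀ c : Ix k, |x (Sum.inl c)| ≤ Y * (n : ℤ) ^ (wtI c)) (m : ℤ) (hm : |m| ≤ A * n) :
    (∀ c : Ix k, |tp m x (Sum.inl c)| ≤ 40 * A ^ 3 * Y * (n : ℤ) ^ (wtI c)) ∧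
    ∀ j, |tp m x (Sum.inr j)| ≤ |x (Sum.inr j)| + 40 * A ^ 3 * Y * (n : ℤ) ^ 4 := by
  have hn1 : (1 : ℤ) ≤ n := by exact_mod_cast hn
  have hn0 : (0 : ℤ) ≤ n := by linarith
  obtain ⟨d1, e1⟩ := Dn_bound hn x Y hY h
  have sm : ∀ (y : W k), Dn ((n : ℤ) • y) = (n : ℤ) • Dn y := fun y => by
    rw [← Dh_apply, map_zsmul, Dh_apply]
  have ab : ∀ (y : W k) (c : Jx k), |((n : ℤ) • y) c| = n * |y c| := fun y c => by
    rw [Pi.smul_apply, smul_eq_mul, abs_mul, abs_of_nonneg hn0]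
  have h1 : ∀ c : Ix k, |((n : ℤ) • Dn x) (Sum.inl c)| ≤ 3 * Y * (n : ℤ) ^ (wtI c) := fun c => by
    rw [ab]; exact d1 c
  obtain ⟨d2, e2⟩ := Dn_bound hn ((n : ℤ) • Dn x) (3 * Y) (by positivity) h1
  have h2 : ∀ c : Ix k, |((n : ℤ) • Dn ((n : ℤ) • Dn x)) (Sum.inl c)| ≤
      3 * (3 * Y) * (n : ℤ) ^ (wtI c) := fun c => by
    rw [ab]; exact d2 c
  obtain ⟨d3, e3⟩ := Dn_bound hn ((n : ℤ) • Dn ((n : ℤ) • Dn x)) (3 * (3 * Y)) (by positivity) h2
  simp only [sm, ab] at d2 e2 d3 e3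
  have hAn : 0 ≤ A * n := by positivity
  have c1 := abs_choose_one m _ hm
  have c2 := abs_choose_two m _ hm
  have c3 := abs_choose_three m _ hm
  have hA2 : A ≤ A ^ 3 := le_self_pow₀ hA (by norm_num)
  have hA3 : A ^ 2 ≤ A ^ 3 := pow_le_pow_right₀ hA (by norm_num)
  have hA1 : 1 ≤ A ^ 3 := one_le_pow₀ hA
  have tri : ∀ c : Jx k, |tp m x c| ≤ |x c| + |Ring.choose m 1| * |Dn x c|
      + |Ring.choose m 2| * |Dn (Dn x) c| + |Ring.choose m 3| * |Dn (Dn (Dn x)) c| := by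
    intro c
    rw [tp_expand]
    simp only [Fx, Pi.add_apply, Pi.smul_apply, smul_eq_mul]
    refine (abs_add_le _ _).trans (add_le_add ((abs_add_le _ _).trans (add_le_add
      ((abs_add_le _ _).trans (add_le_add le_rfl ?_)) ?_)) ?_) <;> rw [abs_mul]
  have fin : ∀ (c : Jx k) (P Q : ℤ), 0 ≤ P → (n : ℤ) * |Dn x c| ≤ 3 * P →
      (n : ℤ) * (n * |Dn (Dn x) c|) ≤ 9 * P → (n : ℤ) * (n * (n * |Dn (Dn (Dn x)) c|)) ≤ 27 * P →
      |x c| ≤ Q → |tp m x c| ≤ Q + 39 * A ^ 3 * P := by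
    intro c P Q hP g1 g2 g3 g4
    have t1 : |Ring.choose m 1| * |Dn x c| ≤ A * (3 * P) := by
      calc |Ring.choose m 1| * |Dn x c| ≤ (A * n) * |Dn x c| :=
            mul_le_mul_of_nonneg_right c1 (abs_nonneg _)
        _ = A * (n * |Dn x c|) := by ring
        _ ≤ A * (3 * P) := mul_le_mul_of_nonneg_left g1 (by linarith)
    have t2 : |Ring.choose m 2| * |Dn (Dn x) c| ≤ A ^ 2 * (9 * P) := by
      calc |Ring.choose m 2| * |Dn (Dn x) c| ≤ (A * n) ^ 2 * |Dn (Dn x) c| :=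
            mul_le_mul_of_nonneg_right c2 (abs_nonneg _)
        _ = A ^ 2 * (n * (n * |Dn (Dn x) c|)) := by ring
        _ ≤ A ^ 2 * (9 * P) := mul_le_mul_of_nonneg_left g2 (by positivity)
    have t3 : |Ring.choose m 3| * |Dn (Dn (Dn x)) c| ≤ A ^ 3 * (27 * P) := by
      calc |Ring.choose m 3| * |Dn (Dn (Dn x)) c| ≤ (A * n) ^ 3 * |Dn (Dn (Dn x)) c| :=
            mul_le_mul_of_nonneg_right c3 (abs_nonneg _)
        _ = A ^ 3 * (n * (n * (n * |Dn (Dn (Dn x)) c|))) := by ring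
        _ ≤ A ^ 3 * (27 * P) := mul_le_mul_of_nonneg_left g3 (by positivity)
    have u1 : A * (3 * P) ≤ A ^ 3 * (3 * P) := mul_le_mul_of_nonneg_right hA2 (by positivity)
    have u2 : A ^ 2 * (9 * P) ≤ A ^ 3 * (9 * P) := mul_le_mul_of_nonneg_right hA3 (by positivity)
    have := tri c
    linarith
  constructor
  · intro c
    have hP : 0 ≤ Y * (n : ℤ) ^ (wtI c) := by positivity
    have := fin (Sum.inl c) (Y * (n : ℤ) ^ (wtI c)) (Y * (n : ℤ) ^ (wtI c)) hP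
      (by have := d1 c; linarith) (by have := d2 c; linarith) (by have := d3 c; linarith) (h c)
    have h5 : Y * (n : ℤ) ^ (wtI c) ≤ A ^ 3 * (Y * (n : ℤ) ^ (wtI c)) :=
      le_mul_of_one_le_left hP hA1
    linarith
  · intro j
    have hP : 0 ≤ Y * (n : ℤ) ^ 4 := by positivity
    have := fin (Sum.inr j) (Y * (n : ℤ) ^ 4) |x (Sum.inr j)| hP
      (by have := e1 j; linarith) (by have := e2 j; linarith) (by have := e3 j; linarith) le_rfl
    have h5 : 0 ≤ A ^ 3 * (Y * (n : ℤ) ^ 4) := by positivity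
    linarith

/-- Sizes of the values of the forms. -/
theorem bz_bound {n : ℕ} (hn : 1 ≤ n) (x y : W k) (Y Y' : ℤ) (hY : 0 ≤ Y) (hY' : 0 ≤ Y')
    (h : ∀ c : Ix k, |x (Sum.inl c)| ≤ Y * (n : ℤ) ^ (wtI c))
    (h' : ∀ c : Ix k, |y (Sum.inl c)| ≤ Y' * (n : ℤ) ^ (wtI c)) (j : Fin 2) :
    |bz x y j| ≤ 16 * k * (Y * Y') * (n : ℤ) ^ 5 := by
  have hn1 : (1 : ℤ) ≤ n := by exact_mod_cast hn
  have hn0 : (0 : ℤ) ≤ n := by linarith
  have key : ∀ (i : Fin k) (s s' : Sy), s.wt + s'.wt ≤ 5 →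
      |x (Sum.inl (Sum.inl (i, s))) * y (Sum.inl (Sum.inl (i, s')))| ≤ Y * Y' * (n : ℤ) ^ 5 := by
    intro i s s' hs
    rw [abs_mul]
    calc |x (Sum.inl (Sum.inl (i, s)))| * |y (Sum.inl (Sum.inl (i, s')))|
        ≤ (Y * (n : ℤ) ^ s.wt) * (Y' * (n : ℤ) ^ s'.wt) :=
          mul_le_mul (h (Sum.inl (i, s))) (h' (Sum.inl (i, s'))) (abs_nonneg _) (by positivity)
      _ = Y * Y' * (n : ℤ) ^ (s.wt + s'.wt) := by rw [pow_add]; ring
      _ ≤ Y * Y' * (n : ℤ) ^ 5 :=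
          mul_le_mul_of_nonneg_left (pow_le_pow_right₀ hn1 hs) (by positivity)
  have key2 : ∀ (i : Fin k) (s s' : Sy), s.wt + s'.wt ≤ 5 →
      |x (Sum.inl (Sum.inl (i, s))) * y (Sum.inl (Sum.inl (i, s'))) -
        x (Sum.inl (Sum.inl (i, s'))) * y (Sum.inl (Sum.inl (i, s)))| ≤
        2 * (Y * Y' * (n : ℤ) ^ 5) := by
    intro i s s' hs
    refine (abs_sub _ _).trans ?_
    have := key i s s' hs
    have := key i s' s (by omega)
    linarith
  have hP : 0 ≤ Y * Y' * (n : ℤ) ^ 5 := by positivity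
  have sm : ∀ F : Fin k → ℤ, (∀ i, |F i| ≤ 16 * (Y * Y' * (n : ℤ) ^ 5)) →
      |∑ i, F i| ≤ 16 * k * (Y * Y') * (n : ℤ) ^ 5 := by
    intro F hF
    calc |∑ i, F i| ≤ ∑ i, |F i| := Finset.abs_sum_le_sum_abs _ _
      _ ≤ ∑ _i : Fin k, 16 * (Y * Y' * (n : ℤ) ^ 5) := Finset.sum_le_sum fun i _ => hF i
      _ = 16 * k * (Y * Y') * (n : ℤ) ^ 5 := by simp; ring
  fin_cases j
  · refine sm _ fun i => ?_
    simp only [be0, pv]
    have t1 := key2 i a1 u1 (by decide)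
    have t2 := key2 i a2 u2 (by decide)
    have t3 := key2 i a3 u3 (by decide)
    have t4 := key2 i b1 v1 (by decide)
    have t5 := key2 i b2 v2 (by decide)
    have t6 := key2 i b3 v3 (by decide)
    have t7 := key2 i yc qb (by decide)
    rw [abs_le] at t1 t2 t3 t4 t5 t6 t7 ⊢
    constructor <;> linarith
  · refine sm _ fun i => ?_
    simp only [be1, pv]
    have t1 := key2 i b1 u1 (by decide)
    have t2 := key2 i b2 u2 (by decide)
    have t3 := key2 i b3 u3 (by decide)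
    have t4 := key2 i c1 v1 (by decide)
    have t5 := key2 i c2 v2 (by decide)
    have t6 := key2 i c3 v3 (by decide)
    have t7 := key2 i yb qb (by decide)
    have t8 := key2 i yc qc (by decide)
    rw [abs_le] at t1 t2 t3 t4 t5 t6 t7 t8 ⊢
    constructor <;> linarith

end

end Pool.Agent.SBG
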