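import Mathlib

/-!
# The subgroup separability function of a group
-/

namespace Pool.Agent.SBG

section general

variable {G : Type} [Group G]

/-- The word length of `g` with respect to `S`: the least length of a list of elements of `S` and
inverses of elements of `S` whose product is `g`. -/
noncomputable def wordNorm (S : Set G) (g : G) : ℕ :=
  sInf {k : ℕ | ∃ l : List G, l.length = k ∧ (∀ x ∈ l, x ∈ S ∨ x⁻¹ ∈ S) ∧ l.prod = g}

/-- `‖H‖_S` of a finitely generated subgroup: the least `k` such that `H` has a finite generating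
set all of whose elements have word length at most `k`. -/
noncomputable def subNorm (S : Set G) (H : Subgroup G) : ℕ :=
  sInf {k : ℕ | ∃ X : Finset G, Subgroup.closure (X : Set G) = H ∧ ∀ x ∈ X, wordNorm S x ≤ k}

/-- The relative depth `D_G(H,g)`: the least order of a finite group `Q` with a homomorphism
`π : G → Q` such that `π(g)` is not in `π(H)` (it is `⊤` if there is none). -/
noncomputable def relDepth (H : Subgroup G) (g : G) : ℕ∞ :=
  sInf {k : ℕ∞ | ∃ (Q : Type) (_ : Group Q) (_ : Finite Q) (π : G →* Q),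
    π g ∉ H.map π ∧ k = (Nat.card Q : ℕ∞)}

/-- The subgroup separability function `Sub_{G,S}(n)`: the supremum of `D_G(H,g)` over all finitely
generated subgroups `H` and all `g` not in `H` with `‖H‖_S ≤ n` and `‖g‖_S ≤ n`. -/
noncomputable def Sub (S : Set G) (n : ℕ) : ℕ∞ :=
  sSup {k : ℕ∞ | ∃ (H : Subgroup G) (g : G), g ∉ H ∧ H.FG ∧ subNorm S H ≤ n ∧ wordNorm S g ≤ n ∧
    k = relDepth H g}

end general

/-- `f ⪯ g`: there is `C` with `f n ≤ C * g (C * n)` for all `n ≥ 1`. -/
def Dom (f g : ℕ → ℕ∞) : Prop := ∃ C : ℕ, ∀ n : ℕ, 1 ≤ n → f n ≤ (C : ℕ∞) * g (C * n)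

/-- `f ≈ g`. -/
def Equ (f g : ℕ → ℕ∞) : Prop := Dom f g ∧ Dom g f

end Pool.Agent.SBG
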