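import Pool.Agent.Helper92_SBG.Def0

/-!
# The groups `Gp k`

`Gp k` is a torsion free nilpotent group of class 5.  Its elements are pairs `(m, x)` of an integer
`m` and an integer vector `x` with `19 k + 5` coordinates.
-/

namespace Pool.Agent.SBG

/-- The symbols of one block of coordinates. -/
inductive Sy
  | a1 | a2 | a3 | b1 | b2 | b3 | c1 | c2 | c3 | u1 | u2 | u3 | v1 | v2 | v3 | yb | yc | qb | qc
  deriving DecidableEq

open Sy

instance : Fintype Sy where
  elems := {a1, a2, a3, b1, b2, b3, c1, c2, c3, u1, u2, u3, v1, v2, v3, yb, yc, qb, qc}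
  complete := by intro x; cases x <;> decide

/-- The weight of a symbol. -/
def Sy.wt : Sy → ℕ
  | a1 => 3 | a2 => 2 | a3 => 1
  | b1 => 4 | b2 => 3 | b3 => 2
  | c1 => 4 | c2 => 3 | c3 => 2
  | u1 => 1 | u2 => 2 | u3 => 3
  | v1 => 1 | v2 => 2 | v3 => 3
  | yb => 4 | yc => 4 | qb => 1 | qc => 1

/-- Index set of the non central coordinates: `k` blocks and three further coordinates. -/
abbrev Ix (k : ℕ) : Type := (Fin k × Sy) ⊕ Fin 3

/-- Index set of all coordinates of a vector: there are two further (central) coordinates. -/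
abbrev Jx (k : ℕ) : Type := Ix k ⊕ Fin 2

/-- Weights of the non central coordinates. -/
def wtI {k : ℕ} : Ix k → ℕ
  | Sum.inl p => p.2.wt
  | Sum.inr j => (j : ℕ) + 1

/-- Weights of all coordinates of a vector. -/
def wt {k : ℕ} : Jx k → ℕ
  | Sum.inl c => wtI c
  | Sum.inr _ => 5

/-- Integer vectors without the central coordinates. -/
abbrev V (k : ℕ) : Type := Ix k → ℤ

/-- Integer vectors. -/
abbrev W (k : ℕ) : Type := Jx k → ℤ

section forms

variable {R : Type*} [CommRing R]

/-- First alternating form on one block. -/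
def be0 (x y : Sy → R) : R :=
  (x a1 * y u1 - x u1 * y a1) + (x a2 * y u2 - x u2 * y a2) + (x a3 * y u3 - x u3 * y a3)
  + (x b1 * y v1 - x v1 * y b1) + (x b2 * y v2 - x v2 * y b2) + (x b3 * y v3 - x v3 * y b3)
  + (x yc * y qb - x qb * y yc)

/-- Second alternating form on one block. -/
def be1 (x y : Sy → R) : R :=
  (x b1 * y u1 - x u1 * y b1) + (x b2 * y u2 - x u2 * y b2) + (x b3 * y u3 - x u3 * y b3)
  + (x c1 * y v1 - x v1 * y c1) + (x c2 * y v2 - x v2 * y c2) + (x c3 * y v3 - x v3 * y c3)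
  + (x yb * y qb - x qb * y yb) + (x yc * y qc - x qc * y yc)

/-- First alternating form. -/
def bf0 {k : ℕ} (x y : Ix k → R) : R :=
  ∑ i : Fin k, be0 (fun s => x (Sum.inl (i, s))) (fun s => y (Sum.inl (i, s)))

/-- Second alternating form. -/
def bf1 {k : ℕ} (x y : Ix k → R) : R :=
  ∑ i : Fin k, be1 (fun s => x (Sum.inl (i, s))) (fun s => y (Sum.inl (i, s)))

end forms

/-- The non central part of a vector. -/
def pv {k : ℕ} (x : W k) : V k := fun c => x (Sum.inl c)

/-- The central part of a vector. -/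
def pz {k : ℕ} (x : W k) : Fin 2 → ℤ := fun j => x (Sum.inr j)

/-- The vector with central part `z` and non central part `0`. -/
def zin {k : ℕ} (z : Fin 2 → ℤ) : W k := Sum.elim 0 z

/-- The pair of alternating forms on vectors. -/
def bz {k : ℕ} (x y : W k) : Fin 2 → ℤ := ![bf0 (pv x) (pv y), bf1 (pv x) (pv y)]

/-- The nilpotent operator on one block. -/
def DSy (x : Sy → ℤ) : Sy → ℤ
  | a1 => x a3 - x a2
  | a2 => - x a3
  | a3 => 0
  | b1 => - x b2 + x b3 + x qb
  | b2 => - x b3 - x qb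
  | b3 => x qb
  | c1 => - x c2 + x c3 + x qc
  | c2 => - x c3 - x qc
  | c3 => x qc
  | u1 => 0
  | u2 => x u1
  | u3 => x u2
  | v1 => 0
  | v2 => x v1
  | v3 => x v2
  | yb => x u3
  | yc => x v3
  | qb => 0
  | qc => 0

/-- The nilpotent operator on vectors. -/
def Dn {k : ℕ} (x : W k) : W k
  | Sum.inl (Sum.inl p) => DSy (fun s => x (Sum.inl (Sum.inl (p.1, s)))) p.2
  | Sum.inl (Sum.inr j) => ![0, x (Sum.inl (Sum.inr 0)), x (Sum.inl (Sum.inr 1))] j
  | Sum.inr j => ![0, x (Sum.inl (Sum.inr 2))] j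

section basic

variable {k : ℕ}

lemma Dn_add (x y : W k) : Dn (x + y) = Dn x + Dn y := by
  funext c
  rcases c with (⟨i, s⟩ | j) | j
  · cases s <;> simp only [Dn, DSy, Pi.add_apply] <;> ring
  · fin_cases j <;> simp [Dn]
  · fin_cases j <;> simp [Dn]

/-- The nilpotent operator as an additive homomorphism. -/
def Dh (k : ℕ) : W k →+ W k := AddMonoidHom.mk' Dn Dn_add

@[simp] lemma Dh_apply (x : W k) : Dh k x = Dn x := rfl

lemma Dn_four (x : W k) : Dn (Dn (Dn (Dn x))) = 0 := by
  funext c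
  rcases c with (⟨i, s⟩ | j) | j
  · cases s <;> simp [Dn, DSy]
  · fin_cases j <;> simp [Dn]
  · fin_cases j <;> simp [Dn]

/-- The nilpotent operator in the ring of additive endomorphisms. -/
def De (k : ℕ) : AddMonoid.End (W k) := Dh k

lemma De_four (k : ℕ) : De k ^ 4 = 0 := by
  apply AddMonoidHom.ext
  intro x
  exact Dn_four x

/-- The unipotent automorphism `T = 1 + D`, as a unit of the ring of additive endomorphisms; its
inverse is `1 - D + D ^ 2 - D ^ 3`. -/
def Tu (k : ℕ) : (AddMonoid.End (W k))ˣ where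
  val := 1 + De k
  inv := 1 - De k + De k ^ 2 - De k ^ 3
  val_inv := by
    have h2 : (1 + De k) * (1 - De k + De k ^ 2 - De k ^ 3) = 1 - De k ^ 4 := by
      simp only [pow_succ, pow_zero, one_mul, mul_sub, mul_add, add_mul, mul_one, mul_assoc]
      abel
    rw [h2, De_four, sub_zero]
  inv_val := by
    have h2 : (1 - De k + De k ^ 2 - De k ^ 3) * (1 + De k) = 1 - De k ^ 4 := by
      simp only [pow_succ, pow_zero, one_mul, mul_add, add_mul, sub_mul, mul_one, mul_assoc]
      abel
    rw [h2, De_four, sub_zero]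

/-- The integer powers `T ^ m`. -/
def tp (m : ℤ) : W k →+ W k := ((Tu k ^ m : (AddMonoid.End (W k))ˣ) : AddMonoid.End (W k))

/-- The alternating form with values in vectors. -/
def Bf (x y : W k) : W k := zin (bz x y)

lemma tp_zero (x : W k) : tp 0 x = x := by
  rw [tp, zpow_zero]; rfl

lemma tp_add (m n : ℤ) (x : W k) : tp (m + n) x = tp m (tp n x) := by
  simp only [tp]; rw [zpow_add]; rfl

lemma tp_one (x : W k) : tp 1 x = x + Dn x := by
  rw [tp, zpow_one]; rfl

lemma tp_neg_tp (m : ℤ) (x : W k) : tp (-m) (tp m x) = x := by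
  rw [← tp_add, neg_add_cancel, tp_zero]

lemma tp_tp_neg (m : ℤ) (x : W k) : tp m (tp (-m) x) = x := by
  rw [← tp_add, add_neg_cancel, tp_zero]

@[simp] lemma pv_zin (z : Fin 2 → ℤ) : pv (zin z : W k) = 0 := rfl
@[simp] lemma pz_zin (z : Fin 2 → ℤ) : pz (zin z : W k) = z := rfl
@[simp] lemma pv_add (x y : W k) : pv (x + y) = pv x + pv y := rfl
@[simp] lemma pz_add (x y : W k) : pz (x + y) = pz x + pz y := rfl
@[simp] lemma pv_neg (x : W k) : pv (-x) = -pv x := rfl
@[simp] lemma pz_neg (x : W k) : pz (-x) = -pz x := rfl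
@[simp] lemma pv_sub (x y : W k) : pv (x - y) = pv x - pv y := rfl
@[simp] lemma pz_sub (x y : W k) : pz (x - y) = pz x - pz y := rfl
@[simp] lemma pv_zero : pv (0 : W k) = 0 := rfl
@[simp] lemma pz_zero : pz (0 : W k) = 0 := rfl

lemma zin_add (z w : Fin 2 → ℤ) : (zin (z + w) : W k) = zin z + zin w := by
  funext c; rcases c with c | j <;> simp [zin]

lemma zin_neg (z : Fin 2 → ℤ) : (zin (-z) : W k) = -zin z := by
  funext c; rcases c with c | j <;> simp [zin]

@[simp] lemma zin_zero : (zin 0 : W k) = 0 := by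
  funext c; rcases c with c | j <;> simp [zin]

lemma W_ext {x y : W k} (h1 : pv x = pv y) (h2 : pz x = pz y) : x = y := by
  funext c
  rcases c with c | j
  · exact congrFun h1 c
  · exact congrFun h2 j

lemma eq_zin_of_pv {x : W k} (h : pv x = 0) : x = zin (pz x) := W_ext h rfl

end basic

section forms

variable {R : Type*} [CommRing R] {k : ℕ}

lemma bf0_add_left (x x' y : Ix k → R) : bf0 (x + x') y = bf0 x y + bf0 x' y := by
  simp only [bf0, ← Finset.sum_add_distrib]
  refine Finset.sum_congr rfl fun i _ => ?_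
  simp only [be0, Pi.add_apply]; ring

lemma bf0_add_right (x y y' : Ix k → R) : bf0 x (y + y') = bf0 x y + bf0 x y' := by
  simp only [bf0, ← Finset.sum_add_distrib]
  refine Finset.sum_congr rfl fun i _ => ?_
  simp only [be0, Pi.add_apply]; ring

lemma bf1_add_left (x x' y : Ix k → R) : bf1 (x + x') y = bf1 x y + bf1 x' y := by
  simp only [bf1, ← Finset.sum_add_distrib]
  refine Finset.sum_congr rfl fun i _ => ?_
  simp only [be1, Pi.add_apply]; ring

lemma bf1_add_right (x y y' : Ix k → R) : bf1 x (y + y') = bf1 x y + bf1 x y' := by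
  simp only [bf1, ← Finset.sum_add_distrib]
  refine Finset.sum_congr rfl fun i _ => ?_
  simp only [be1, Pi.add_apply]; ring

lemma bf0_swap (x y : Ix k → R) : bf0 y x = - bf0 x y := by
  simp only [bf0, ← Finset.sum_neg_distrib]
  refine Finset.sum_congr rfl fun i _ => ?_
  simp only [be0]; ring

lemma bf1_swap (x y : Ix k → R) : bf1 y x = - bf1 x y := by
  simp only [bf1, ← Finset.sum_neg_distrib]
  refine Finset.sum_congr rfl fun i _ => ?_
  simp only [be1]; ring

@[simp] lemma bf0_self (x : Ix k → R) : bf0 x x = 0 := by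
  simp only [bf0]
  refine Finset.sum_eq_zero fun i _ => ?_
  simp only [be0]; ring

@[simp] lemma bf1_self (x : Ix k → R) : bf1 x x = 0 := by
  simp only [bf1]
  refine Finset.sum_eq_zero fun i _ => ?_
  simp only [be1]; ring

end forms

section groupG

variable {k : ℕ}

lemma bz_add_left (x x' y : W k) : bz (x + x') y = bz x y + bz x' y := by
  funext j; fin_cases j <;> simp [bz, bf0_add_left, bf1_add_left]

lemma bz_add_right (x y y' : W k) : bz x (y + y') = bz x y + bz x y' := by
  funext j; fin_cases j <;> simp [bz, bf0_add_right, bf1_add_right]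

lemma bz_swap (x y : W k) : bz y x = - bz x y := by
  funext j; fin_cases j <;> simp [bz, bf0_swap (pv x), bf1_swap (pv x)]

@[simp] lemma bz_self (x : W k) : bz x x = 0 := by
  funext j; fin_cases j <;> simp [bz]

lemma bz_congr {x x' y y' : W k} (h : pv x = pv x') (h' : pv y = pv y') : bz x y = bz x' y' := by
  simp only [bz, h, h']

/-- `Bf` as a biadditive map. -/
def Bh (k : ℕ) : W k →+ W k →+ W k :=
  AddMonoidHom.mk' (fun x => AddMonoidHom.mk' (fun y => Bf x y)
    (fun y y' => by simp only [Bf, bz_add_right, zin_add]))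
    (fun x x' => by
      apply AddMonoidHom.ext
      intro y
      change Bf (x + x') y = Bf x y + Bf x' y
      simp only [Bf, bz_add_left, zin_add])

@[simp] lemma Bh_apply (x y : W k) : Bh k x y = Bf x y := rfl

lemma Bf_add_left (x x' y : W k) : Bf (x + x') y = Bf x y + Bf x' y := by
  simp only [Bf, bz_add_left, zin_add]
lemma Bf_add_right (x y y' : W k) : Bf x (y + y') = Bf x y + Bf x y' := by
  simp only [Bf, bz_add_right, zin_add]
lemma Bf_neg_left (x y : W k) : Bf (-x) y = - Bf x y := by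
  simp only [← Bh_apply, map_neg, AddMonoidHom.neg_apply]
lemma Bf_neg_right (x y : W k) : Bf x (-y) = - Bf x y := by
  simp only [← Bh_apply, map_neg]
lemma Bf_sub_left (x x' y : W k) : Bf (x - x') y = Bf x y - Bf x' y := by
  simp only [← Bh_apply, map_sub, AddMonoidHom.sub_apply]
lemma Bf_sub_right (x y y' : W k) : Bf x (y - y') = Bf x y - Bf x y' := by
  simp only [← Bh_apply, map_sub]
@[simp] lemma Bf_zero_left (y : W k) : Bf 0 y = 0 := by
  simp only [← Bh_apply, map_zero, AddMonoidHom.zero_apply]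
@[simp] lemma Bf_zero_right (x : W k) : Bf x 0 = 0 := by
  simp only [← Bh_apply, map_zero]
@[simp] lemma Bf_self (x : W k) : Bf x x = 0 := by
  simp only [Bf, bz_self, zin_zero]
lemma Bf_swap (x y : W k) : Bf y x = - Bf x y := by
  rw [Bf, bz_swap, zin_neg, Bf]
lemma Bf_zsmul_left (m : ℤ) (x y : W k) : Bf (m • x) y = m • Bf x y := by
  simp only [← Bh_apply, map_zsmul, AddMonoidHom.smul_apply]
lemma Bf_zsmul_right (m : ℤ) (x y : W k) : Bf x (m • y) = m • Bf x y := by
  simp only [← Bh_apply, map_zsmul]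
lemma Bf_nsmul_left (m : ℕ) (x y : W k) : Bf (m • x) y = m • Bf x y := by
  simp only [← Bh_apply, map_nsmul, AddMonoidHom.smul_apply]
lemma Bf_nsmul_right (m : ℕ) (x y : W k) : Bf x (m • y) = m • Bf x y := by
  simp only [← Bh_apply, map_nsmul]
lemma Bf_congr {x x' y y' : W k} (h : pv x = pv x') (h' : pv y = pv y') : Bf x y = Bf x' y' := by
  rw [Bf, Bf, bz_congr h h']
@[simp] lemma Bf_zin_left (z : Fin 2 → ℤ) (y : W k) : Bf (zin z) y = 0 := by
  rw [Bf_congr (x' := 0) (y' := y) (by simp) rfl, Bf_zero_left]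
@[simp] lemma Bf_zin_right (x : W k) (z : Fin 2 → ℤ) : Bf x (zin z) = 0 := by
  rw [Bf_congr (x' := x) (y' := 0) rfl (by simp), Bf_zero_right]
@[simp] lemma Bf_Bf_left (x y w : W k) : Bf (Bf x y) w = 0 := Bf_zin_left _ _
@[simp] lemma Bf_Bf_right (x y w : W k) : Bf w (Bf x y) = 0 := Bf_zin_right _ _
@[simp] lemma pv_Bf (x y : W k) : pv (Bf x y) = 0 := rfl
@[simp] lemma pz_Bf (x y : W k) : pz (Bf x y) = bz x y := rfl

@[simp] lemma Dn_zin (z : Fin 2 → ℤ) : Dn (zin z : W k) = 0 := by
  funext c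
  rcases c with (⟨i, s⟩ | j) | j
  · cases s <;> simp [Dn, DSy, zin]
  · fin_cases j <;> simp [Dn, zin]
  · fin_cases j <;> simp [Dn, zin]

lemma bz_T (x y : W k) : bz (x + Dn x) (y + Dn y) = bz x y := by
  have h0 : bf0 (pv (x + Dn x)) (pv (y + Dn y)) = bf0 (pv x) (pv y) := by
    simp only [bf0, be0, pv, Dn, DSy, Pi.add_apply]
    refine Finset.sum_congr rfl fun i _ => ?_
    ring
  have h1 : bf1 (pv (x + Dn x)) (pv (y + Dn y)) = bf1 (pv x) (pv y) := by
    simp only [bf1, be1, pv, Dn, DSy, Pi.add_apply]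
    refine Finset.sum_congr rfl fun i _ => ?_
    ring
  rw [bz, bz, h0, h1]

lemma Bf_tp_one (x y : W k) : Bf (tp 1 x) (tp 1 y) = Bf x y := by
  rw [Bf, tp_one, tp_one, bz_T, Bf]

lemma Bf_tp (m : ℤ) (x y : W k) : Bf (tp m x) (tp m y) = Bf x y := by
  induction m generalizing x y with
  | zero => rw [tp_zero, tp_zero]
  | succ m ih => rw [tp_add, tp_add, ih, Bf_tp_one]
  | pred m ih =>
    have e : -(m : ℤ) - 1 = -(m : ℤ) + (-1) := by ring
    rw [e, tp_add, tp_add, ih, ← Bf_tp_one, tp_tp_neg, tp_tp_neg]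

lemma tp_zin (m : ℤ) (z : Fin 2 → ℤ) : tp m (zin z : W k) = zin z := by
  induction m with
  | zero => rw [tp_zero]
  | succ m ih => rw [tp_add, tp_one, Dn_zin, add_zero, ih]
  | pred m ih =>
    have h1 : tp (-1) (zin z : W k) = zin z := by
      have h2 := tp_neg_tp 1 (zin z : W k)
      rwa [tp_one, Dn_zin, add_zero] at h2
    have e : -(m : ℤ) - 1 = -(m : ℤ) + (-1) := by ring
    rw [e, tp_add, h1, ih]

@[simp] lemma tp_Bf (m : ℤ) (x y : W k) : tp m (Bf x y) = Bf x y := tp_zin _ _

/-- The group `Gp k`: pairs `(m, x)` with `m` an integer and `x` an integer vector. -/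
@[ext] structure Gp (k : ℕ) where
  m : ℤ
  x : W k

namespace Gp

/-- The group law `(m, x) (n, y) = (m + n, x + T ^ m y + B(x, T ^ m y))`. -/
instance : Mul (Gp k) := ⟨fun g h => ⟨g.m + h.m, g.x + tp g.m h.x + Bf g.x (tp g.m h.x)⟩⟩
instance : One (Gp k) := ⟨⟨0, 0⟩⟩
instance : Inv (Gp k) := ⟨fun g => ⟨-g.m, -tp (-g.m) g.x⟩⟩

@[simp] lemma mul_m (g h : Gp k) : (g * h).m = g.m + h.m := rfl
@[simp] lemma mul_x (g h : Gp k) : (g * h).x = g.x + tp g.m h.x + Bf g.x (tp g.m h.x) := rfl
@[simp] lemma one_m : (1 : Gp k).m = 0 := rfl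
@[simp] lemma one_x : (1 : Gp k).x = 0 := rfl
@[simp] lemma inv_m (g : Gp k) : (g⁻¹).m = -g.m := rfl
@[simp] lemma inv_x (g : Gp k) : (g⁻¹).x = -tp (-g.m) g.x := rfl

instance : Group (Gp k) :=
  Group.ofLeftAxioms
    (fun g h l => by
      apply Gp.ext
      · simp only [mul_m]; ring
      · simp only [mul_x, mul_m, map_add, tp_add, Bf_add_left, Bf_add_right, tp_Bf, Bf_Bf_left,
          Bf_Bf_right, Bf_tp]
        abel)
    (fun g => by
      apply Gp.ext
      · simp
      · simp [tp_zero])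
    (fun g => by
      apply Gp.ext
      · simp
      · simp [Bf_neg_left])

end Gp

end groupG

end Pool.Agent.SBG
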