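import Pool.Agent.Helper92_SBG.Upb

namespace Pool.Agent.SBG.H92

open Pool.Agent.SBG

lemma Sub_mono {G : Type} [Group G] (S : Set G) {m n : ℕ} (h : m ≤ n) : Sub S m ≤ Sub S n := by
  refine sSup_le_sSup ?_
  rintro _ ⟨H, g, hg, hfg, h1, h2, rfl⟩
  exact ⟨H, g, hg, hfg, h1.trans h, h2.trans h, rfl⟩

/-- The exact growth of the square of the subgroup separability function. -/
theorem growth (hlwc : LwcStmt) (hupb : UpbStmt) (S : Finset (Gp 100))
    (hS : Subgroup.closure (S : Set (Gp 100)) = ⊤) :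
    Equ (fun n => Sub (S : Set (Gp 100)) n ^ 2) (fun n => (n : ℕ∞) ^ 10950915) := by
  constructor
  · obtain ⟨C, hC⟩ := hupb 100 le_rfl S hS
    refine ⟨C + 1, ?_⟩
    intro n hn
    refine (hC n hn).trans ?_
    have h1 : C * n ^ ((68 * 100 + 23) * (16 * 100 + 5)) ≤ (C + 1) * ((C + 1) * n) ^ 10950915 := by
      have h2 : n ^ ((68 * 100 + 23) * (16 * 100 + 5)) ≤ ((C + 1) * n) ^ 10950915 :=
        Nat.pow_le_pow_left (Nat.le_mul_of_pos_left n (Nat.succ_pos C)) _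
      exact Nat.mul_le_mul (Nat.le_succ C) h2
    have h3 : ((C * n ^ ((68 * 100 + 23) * (16 * 100 + 5)) : ℕ) : ℕ∞) ≤
        (((C + 1) * ((C + 1) * n) ^ 10950915 : ℕ) : ℕ∞) := by exact_mod_cast h1
    refine h3.trans (le_of_eq ?_)
    rw [Nat.cast_mul, Nat.cast_pow]
  · obtain ⟨A, hA⟩ := hlwc 100 (by norm_num) S hS
    refine ⟨9 * A + 1, ?_⟩
    intro n hn
    set s := Nat.sqrt n + 2 with hs
    have hs1 : n ≤ s ^ 2 := by
      have := Nat.sqrt_le_sqrt (le_refl n)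
      have h2 := Nat.lt_succ_sqrt n
      have h3 : (Nat.sqrt n + 1) * (Nat.sqrt n + 1) ≤ s ^ 2 := by
        rw [hs, pow_two]; exact Nat.mul_le_mul (by omega) (by omega)
      exact h2.le.trans h3
    have hs2 : s ^ 2 ≤ 9 * n := by
      have h1 : 1 ≤ Nat.sqrt n := Nat.le_sqrt.mpr (by omega)
      have h2 : s ≤ 3 * Nat.sqrt n := by omega
      calc s ^ 2 ≤ (3 * Nat.sqrt n) ^ 2 := Nat.pow_le_pow_left h2 2
        _ = 9 * (Nat.sqrt n * Nat.sqrt n) := by ring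
        _ ≤ 9 * n := Nat.mul_le_mul_left _ (Nat.sqrt_le n)
    have h1 := hA s (by omega)
    have h2 : Sub (S : Set (Gp 100)) (A * s ^ 2) ≤ Sub (S : Set (Gp 100)) ((9 * A + 1) * n) := by
      refine Sub_mono _ ?_
      calc A * s ^ 2 ≤ A * (9 * n) := Nat.mul_le_mul_left _ hs2
        _ ≤ (9 * A + 1) * n := by nlinarith
    have h3 := h1.trans h2
    have h4 : ((n : ℕ∞)) ^ 10950915 ≤ Sub (S : Set (Gp 100)) ((9 * A + 1) * n) ^ 2 := by
      have h5 := pow_le_pow_left₀ zero_le h3 2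
      refine le_trans ?_ h5
      have h6 : n ^ 10950915 ≤ (s ^ ((68 * 100 + 23) * (16 * 100 + 5))) ^ 2 := by
        calc n ^ 10950915 ≤ (s ^ 2) ^ 10950915 := Nat.pow_le_pow_left hs1 _
          _ = (s ^ ((68 * 100 + 23) * (16 * 100 + 5))) ^ 2 := by
              rw [← pow_mul, ← pow_mul]
      have h7 : (((n ^ 10950915 : ℕ)) : ℕ∞) ≤
          (((s ^ ((68 * 100 + 23) * (16 * 100 + 5))) ^ 2 : ℕ) : ℕ∞) := by exact_mod_cast h6
      rw [Nat.cast_pow, Nat.cast_pow (s ^ ((68 * 100 + 23) * (16 * 100 + 5))) 2] at h7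
      exact h7
    refine h4.trans ?_
    have h8 : (1 : ℕ∞) ≤ ((9 * A + 1 : ℕ) : ℕ∞) := by exact_mod_cast Nat.le_add_left 1 (9 * A)
    exact le_mul_of_one_le_left zero_le h8

end Pool.Agent.SBG.H92
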