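import Pool.Agent.Helper92_SBG.Stmts

/-!
Elementary facts on `relDepth`, `sat`, `LM`, `Lam`, `HX`.
-/

namespace Pool.Agent.SBG

section

variable {G : Type} [Group G]

lemma relDepth_le_card (H : Subgroup G) (g : G) (Q : Type) [Group Q] [Finite Q] (π : G →* Q)
    (h : π g ∉ H.map π) : relDepth H g ≤ (Nat.card Q : ℕ∞) :=
  sInf_le ⟨Q, inferInstance, inferInstance, π, h, rfl⟩

lemma relDepth_le_index (H K : Subgroup G) [K.Normal] (g : G)
    (hK : K.index ≠ 0) (hg : g ∉ H ⊔ K) : relDepth H g ≤ (K.index : ℕ∞) := by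
  have hK' : K.FiniteIndex := ⟨hK⟩
  have hfin : Finite (G ⧸ K) := inferInstance
  refine sInf_le ⟨G ⧸ K, inferInstance, hfin, QuotientGroup.mk' K, ?_, rfl⟩
  rintro ⟨h, hh, hhg⟩
  apply hg
  have h1 : h⁻¹ * g ∈ K := by
    rw [← QuotientGroup.eq]
    exact hhg
  have h2 : g = h * (h⁻¹ * g) := by group
  rw [h2]
  exact Subgroup.mul_mem_sup hh h1

/-- A larger subgroup is harder to separate from `g`. -/
lemma relDepth_mono {H H' : Subgroup G} (h : H ≤ H') (g : G) : relDepth H g ≤ relDepth H' g := by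
  refine sInf_le_sInf ?_
  rintro k ⟨Q, i1, i2, π, hπ, rfl⟩
  exact ⟨Q, i1, i2, π, fun h' => hπ (Subgroup.map_mono h h'), rfl⟩

lemma relDepth_mul_left (H : Subgroup G) {h : G} (hh : h ∈ H) (g : G) :
    relDepth H (h * g) = relDepth H g := by
  unfold relDepth
  congr 1
  ext k
  constructor
  · rintro ⟨Q, i1, i2, π, hπ, rfl⟩
    refine ⟨Q, i1, i2, π, fun h' => hπ ?_, rfl⟩
    rw [map_mul]
    exact (H.map π).mul_mem ⟨h, hh, rfl⟩ h'
  · rintro ⟨Q, i1, i2, π, hπ, rfl⟩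
    refine ⟨Q, i1, i2, π, fun h' => hπ ?_, rfl⟩
    have h2 := (H.map π).mul_mem (⟨h⁻¹, H.inv_mem hh, rfl⟩ : π h⁻¹ ∈ H.map π) h'
    rw [← map_mul] at h2
    have e : h⁻¹ * (h * g) = g := by group
    rwa [e] at h2

lemma relDepth_mul_right (H : Subgroup G) {h : G} (hh : h ∈ H) (g : G) :
    relDepth H (g * h) = relDepth H g := by
  unfold relDepth
  congr 1
  ext k
  constructor
  · rintro ⟨Q, i1, i2, π, hπ, rfl⟩
    refine ⟨Q, i1, i2, π, fun h' => hπ ?_, rfl⟩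
    rw [map_mul]
    exact (H.map π).mul_mem h' ⟨h, hh, rfl⟩
  · rintro ⟨Q, i1, i2, π, hπ, rfl⟩
    refine ⟨Q, i1, i2, π, fun h' => hπ ?_, rfl⟩
    have h2 := (H.map π).mul_mem h' (⟨h⁻¹, H.inv_mem hh, rfl⟩ : π h⁻¹ ∈ H.map π)
    rw [← map_mul] at h2
    have e : g * h * h⁻¹ = g := by group
    rwa [e] at h2

/-- If `π(z) ∉ π(H)` forces a large quotient then the relative depth is large. -/
lemma le_relDepth (H : Subgroup G) (g : G) (N : ℕ)
    (h : ∀ (Q : Type) [Group Q] [Finite Q] (π : G →* Q), π g ∉ H.map π → N ≤ Nat.card Q) :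
    (N : ℕ∞) ≤ relDepth H g := by
  refine le_sInf ?_
  rintro k ⟨Q, i1, i2, π, hπ, rfl⟩
  exact_mod_cast h Q π hπ

end

lemma mem_sat {A : Type*} [AddCommGroup A] {L : AddSubgroup A} {a : A} :
    a ∈ sat L ↔ ∃ k : ℕ, 0 < k ∧ k • a ∈ L := Iff.rfl

lemma le_sat {A : Type*} [AddCommGroup A] (L : AddSubgroup A) : L ≤ sat L :=
  fun a ha => ⟨1, one_pos, by simpa using ha⟩

lemma sat_mono {A : Type*} [AddCommGroup A] {L M : AddSubgroup A} (h : L ≤ M) : sat L ≤ sat M :=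
  fun _ ⟨k, hk, ha⟩ => ⟨k, hk, h ha⟩

lemma sat_sat {A : Type*} [AddCommGroup A] (L : AddSubgroup A) : sat (sat L) = sat L := by
  apply le_antisymm
  · rintro a ⟨k, hk, l, hl, ha⟩
    exact ⟨l * k, Nat.mul_pos hl hk, by rwa [mul_smul]⟩
  · exact le_sat _

lemma castv_add {ι : Type} (x y : ι → ℤ) : castv (x + y) = castv x + castv y := by
  funext i; simp [castv]
lemma castv_zero {ι : Type} : castv (0 : ι → ℤ) = 0 := by funext i; simp [castv]
lemma castv_neg {ι : Type} (x : ι → ℤ) : castv (-x) = - castv x := by funext i; simp [castv]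
lemma castv_nsmul {ι : Type} (k : ℕ) (x : ι → ℤ) : castv (k • x) = (k : ℚ) • castv x := by
  funext i; simp [castv]
lemma castv_zsmul {ι : Type} (k : ℤ) (x : ι → ℤ) : castv (k • x) = (k : ℚ) • castv x := by
  funext i; simp [castv]

lemma castv_mem_LQ {ι : Type} {L : AddSubgroup (ι → ℤ)} {x : ι → ℤ} (h : x ∈ sat L) :
    castv x ∈ LQ L := by
  obtain ⟨k, hk, hx⟩ := h
  have h1 : castv (k • x) ∈ LQ L := Submodule.subset_span ⟨_, hx, rfl⟩
  rw [castv_nsmul] at h1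
  have hk' : (k : ℚ) ≠ 0 := by exact_mod_cast hk.ne'
  have := (LQ L).smul_mem ((k : ℚ)⁻¹) h1
  rwa [smul_smul, inv_mul_cancel₀ hk', one_smul] at this

lemma LQ_sat {ι : Type} (L : AddSubgroup (ι → ℤ)) : LQ (sat L) = LQ L := by
  apply le_antisymm
  · rw [LQ, Submodule.span_le]
    rintro _ ⟨x, hx, rfl⟩
    exact castv_mem_LQ hx
  · exact Submodule.span_mono (Set.image_mono (le_sat L))

section

variable {k : ℕ}

lemma HX_m {X : Finset (W k)} {g : Gp k} (h : g ∈ HX X) : g.m = 0 := by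
  refine Subgroup.closure_induction (p := fun g _ => g.m = 0) ?_ ?_ ?_ ?_ h
  · rintro _ ⟨x, _, rfl⟩; rfl
  · rfl
  · intro g h _ _ hg hh; simp [hg, hh]
  · intro g _ hg; simp [hg]

lemma mem_HX {X : Finset (W k)} {x : W k} (h : x ∈ X) : (⟨0, x⟩ : Gp k) ∈ HX X :=
  Subgroup.subset_closure ⟨x, h, rfl⟩

lemma Tr_HX (X : Finset (W k)) : Tr (HX X) 1 :=
  ⟨one_pos, fun h _ => by simp, Or.inl fun _ h => HX_m h⟩

/-- `LM` of the group generated by elements with `m = 0`. -/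
lemma LM_HX (X : Finset (W k)) : LM (HX X) = AddSubgroup.closure (pv '' (X : Set (W k))) := by
  apply le_antisymm
  · rintro _ ⟨g, hg, _, rfl⟩
    refine Subgroup.closure_induction
      (p := fun g _ => pv g.x ∈ AddSubgroup.closure (pv '' (X : Set (W k)))) ?_ ?_ ?_ ?_ hg
    · rintro _ ⟨x, hx, rfl⟩; exact AddSubgroup.subset_closure ⟨x, hx, rfl⟩
    · exact AddSubgroup.zero_mem _
    · intro g h hg' hh' hg hh
      rw [Gp.mul_x, HX_m hg', tp_zero, pv_add, pv_add, pv_Bf, add_zero]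
      exact AddSubgroup.add_mem _ hg hh
    · intro g hg' hg
      rw [Gp.inv_x, HX_m hg', neg_zero, tp_zero, pv_neg]
      exact AddSubgroup.neg_mem _ hg
  · rw [AddSubgroup.closure_le]
    rintro _ ⟨x, hx, rfl⟩
    exact ⟨_, mem_HX hx, rfl, rfl⟩

/-- The values of the forms on `LM`. -/
lemma mem_LM_iff {H : Subgroup (Gp k)} {v : V k} : v ∈ LM H ↔ ∃ h ∈ H, h.m = 0 ∧ pv h.x = v :=
  Iff.rfl

lemma mem_Lam_iff {H : Subgroup (Gp k)} {z : Fin 2 → ℤ} :
    z ∈ Lam H ↔ (⟨0, zin z⟩ : Gp k) ∈ H := Iff.rfl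

/-- Commutators of elements of `H` with `m = 0` are in `Lam H`. -/
lemma two_bz_mem {H : Subgroup (Gp k)} {x y : W k} (hx : (⟨0, x⟩ : Gp k) ∈ H)
    (hy : (⟨0, y⟩ : Gp k) ∈ H) : 2 • bz x y ∈ Lam H := by
  have h := H.mul_mem (H.mul_mem (H.mul_mem hx hy) (H.inv_mem hx)) (H.inv_mem hy)
  rw [Gp.comm0] at h
  have e : 2 • Bf x y = (zin (2 • bz x y) : W k) := by
    rw [two_smul, two_smul, zin_add]; rfl
  rw [e] at h
  exact h

end

end Pool.Agent.SBG
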