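import Pool.Agent.Helper92_SBG.Basic

/-!
Statements of the modules of the proof that the subgroup separability function of `Gp k` grows like
`n ^ ((68 k + 23) (16 k + 5) / 2)`.
-/

namespace Pool.Agent.SBG

open Sy

/-! ### Lattices -/

/-- The saturation of a subgroup of an abelian group. -/
def sat {A : Type*} [AddCommGroup A] (L : AddSubgroup A) : AddSubgroup A where
  carrier := {a | ∃ k : ℕ, 0 < k ∧ k • a ∈ L}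
  zero_mem' := ⟨1, one_pos, by simp⟩
  add_mem' := by
    rintro a b ⟨k, hk, ha⟩ ⟨l, hl, hb⟩
    refine ⟨k * l, Nat.mul_pos hk hl, ?_⟩
    have h1 : (k * l) • (a + b) = l • (k • a) + k • (l • b) := by
      rw [smul_add, ← mul_smul, ← mul_smul, mul_comm l k]
    rw [h1]
    exact L.add_mem (L.nsmul_mem ha _) (L.nsmul_mem hb _)
  neg_mem' := by
    rintro a ⟨k, hk, ha⟩
    exact ⟨k, hk, by rw [smul_neg]; exact L.neg_mem ha⟩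

/-- The cast of an integer vector to a rational vector. -/
def castv {ι : Type} (x : ι → ℤ) : ι → ℚ := fun i => (x i : ℚ)

/-- The rational span of a subgroup of `ℤ ^ ι`. -/
def LQ {ι : Type} (L : AddSubgroup (ι → ℤ)) : Submodule ℚ (ι → ℚ) :=
  Submodule.span ℚ (castv '' (L : Set (ι → ℤ)))

/-- The coordinate subspace of the vectors which vanish at the coordinates not in `S`. -/
def VS {ι : Type} (S : ι → Prop) : Submodule ℚ (ι → ℚ) where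
  carrier := {x | ∀ c, ¬ S c → x c = 0}
  zero_mem' := fun _ _ => rfl
  add_mem' := by
    intro x y hx hy c hc
    rw [Pi.add_apply, hx c hc, hy c hc, add_zero]
  smul_mem' := by
    intro t x hx c hc
    rw [Pi.smul_apply, hx c hc, smul_zero]

/-- Dimension, as a natural number. -/
noncomputable abbrev dm {ι : Type} (L : Submodule ℚ (ι → ℚ)) : ℕ := Module.finrank ℚ L

/-! ### Sets of coordinates and special subspaces -/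

/-- `c` is the coordinate with symbol `s` in some block. -/
def isS {k : ℕ} (s : Sy) (c : Ix k) : Prop := ∃ i : Fin k, c = Sum.inl (i, s)

/-- The radical vectors of the third blocks for the form `l0 * bf0 + l1 * bf1`. -/
def radv {k : ℕ} (l0 l1 : ℚ) (t : Fin k → ℚ) : Ix k → ℚ
  | Sum.inl (i, a3) => t i * l1 ^ 2
  | Sum.inl (i, b3) => -(t i * l0 * l1)
  | Sum.inl (i, c3) => t i * l0 ^ 2
  | _ => 0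

/-- The space spanned by the radical vectors of the third blocks. -/
def Rad (k : ℕ) (l0 l1 : ℚ) : Submodule ℚ (Ix k → ℚ) where
  carrier := {x | ∃ t : Fin k → ℚ, x = radv l0 l1 t}
  zero_mem' := ⟨0, by
    funext c
    rcases c with ⟨i, s⟩ | j
    · cases s <;> simp [radv]
    · rfl⟩
  add_mem' := by
    rintro x y ⟨t, rfl⟩ ⟨t', rfl⟩
    refine ⟨t + t', ?_⟩
    funext c
    rcases c with ⟨i, s⟩ | j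
    · cases s <;> simp [radv] <;> ring
    · simp [radv]
  smul_mem' := by
    rintro a x ⟨t, rfl⟩
    refine ⟨a • t, ?_⟩
    funext c
    rcases c with ⟨i, s⟩ | j
    · cases s <;> simp [radv] <;> ring
    · simp [radv]

/-- `L` is isotropic for `l0 * bf0 + l1 * bf1`. -/
def Iso {k : ℕ} (l0 l1 : ℚ) (L : Submodule ℚ (Ix k → ℚ)) : Prop :=
  ∀ x ∈ L, ∀ y ∈ L, l0 * bf0 x y + l1 * bf1 x y = 0

/-! ### Subgroups of `Gp k` -/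

/-- The image in `V k` of the part `m = 0` of a subgroup. -/
def LM {k : ℕ} (H : Subgroup (Gp k)) : AddSubgroup (V k) where
  carrier := {v | ∃ h ∈ H, h.m = 0 ∧ pv h.x = v}
  zero_mem' := ⟨1, H.one_mem, rfl, rfl⟩
  add_mem' := by
    rintro _ _ ⟨g, hg, g0, rfl⟩ ⟨h, hh, h0, rfl⟩
    refine ⟨g * h, H.mul_mem hg hh, by simp [g0, h0], ?_⟩
    rw [Gp.mul_x, g0, tp_zero, pv_add, pv_add, pv_Bf, add_zero]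
  neg_mem' := by
    rintro _ ⟨g, hg, g0, rfl⟩
    refine ⟨g⁻¹, H.inv_mem hg, by simp [g0], ?_⟩
    rw [Gp.inv_x, g0, neg_zero, tp_zero, pv_neg]

/-- The central part of a subgroup. -/
def Lam {k : ℕ} (H : Subgroup (Gp k)) : AddSubgroup (Fin 2 → ℤ) where
  carrier := {z | (⟨0, zin z⟩ : Gp k) ∈ H}
  zero_mem' := by
    have : (⟨0, zin 0⟩ : Gp k) = 1 := by rw [zin_zero]; rfl
    change (⟨0, zin 0⟩ : Gp k) ∈ H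
    rw [this]; exact H.one_mem
  add_mem' := by
    intro z w hz hw
    have h := H.mul_mem hz hw
    rw [Gp.mul0, Bf_zin_left, add_zero, ← zin_add] at h
    exact h
  neg_mem' := by
    intro z hz
    have h := H.inv_mem hz
    rw [Gp.inv0, ← zin_neg] at h
    exact h

/-- The radical of `χ ∘ bz`. -/
def Rc {k q : ℕ} (χ : (Fin 2 → ℤ) →+ ZMod q) : AddSubgroup (W k) where
  carrier := {x | ∀ y, χ (bz x y) = 0}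
  zero_mem' := by
    intro y
    have h : bz (0 : W k) y = 0 := by
      have h2 := bz_add_left (0 : W k) 0 y
      rw [add_zero] at h2
      exact left_eq_add.mp h2
    rw [h, map_zero]
  add_mem' := by
    intro x x' hx hx' y
    rw [bz_add_left, map_add, hx y, hx' y, add_zero]
  neg_mem' := by
    intro x hx y
    have h : bz (-x) y = - bz x y := by
      have h2 := bz_add_left (-x) x y
      have h3 : bz (0 : W k) y = 0 := by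
        have h2 := bz_add_left (0 : W k) 0 y
        rw [add_zero] at h2
        exact left_eq_add.mp h2
      rw [neg_add_cancel, h3] at h2
      exact eq_neg_of_add_eq_zero_left h2.symm
    rw [h, map_neg, hx y, neg_zero]

/-- The subgroup generated by the elements `(0, x)`, `x ∈ X`. -/
def HX {k : ℕ} (X : Finset (W k)) : Subgroup (Gp k) :=
  Subgroup.closure ((fun x => (⟨0, x⟩ : Gp k)) '' (X : Set (W k)))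

/-- `a₀` is (for the purposes of separation) the generator of the set of the first coordinates of
the elements of `H`. -/
def Tr {k : ℕ} (H : Subgroup (Gp k)) (a₀ : ℕ) : Prop :=
  0 < a₀ ∧ (∀ h ∈ H, (a₀ : ℤ) ∣ h.m) ∧ ((∀ h ∈ H, h.m = 0) ∨ ∃ h ∈ H, h.m = a₀)

/-- The relative depth of `g` is at most the square root of
`C * n ^ ((68 k + 23) * (16 k + 5))`. -/
def Sm {k : ℕ} (C n : ℕ) (H : Subgroup (Gp k)) (g : Gp k) : Prop :=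
  ∃ d : ℕ, relDepth H g ≤ (d : ℕ∞) ∧ d ^ 2 ≤ C * n ^ ((68 * k + 23) * (16 * k + 5))

/-! ### A. The group -/

/-- NIL. -/
def NilStmt : Prop := ∀ k : ℕ, Group.IsNilpotent (Gp k) ∧
  (∀ (g : Gp k) (n : ℕ), 0 < n → g ^ n = 1 → g = 1) ∧ Group.FG (Gp k)

/-- BXU: coordinates of an element of word length at most `n`. -/
def BxuStmt : Prop := ∀ (k : ℕ) (S : Finset (Gp k)), Subgroup.closure (S : Set (Gp k)) = ⊤ →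
  ∃ C : ℕ, ∀ n : ℕ, 1 ≤ n → ∀ g : Gp k, wordNorm (S : Set (Gp k)) g ≤ n →
    |g.m| ≤ C * n ∧ ∀ c, |g.x c| ≤ C * (n : ℤ) ^ (wt c)

/-- BXL: word length of an element `(0, x)` with small coordinates. -/
def BxlStmt : Prop := ∀ (k : ℕ), 1 ≤ k → ∀ (S : Finset (Gp k)),
  Subgroup.closure (S : Set (Gp k)) = ⊤ →
  ∀ A : ℕ, ∃ C : ℕ, ∀ n : ℕ, 1 ≤ n → ∀ x : W k, (∀ c, |x c| ≤ A * (n : ℤ) ^ (wt c)) →
    wordNorm (S : Set (Gp k)) (⟨0, x⟩ : Gp k) ≤ C * n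

/-! ### B. The lower bound -/

/-- LWA: the subgroup of the lower bound. -/
def LwaStmt : Prop := ∀ k : ℕ, ∃ A : ℕ, ∀ s : ℕ, 2 ≤ s → ∀ p : ℕ, p.Prime →
  s ^ (68 * k + 23) < p → p ≤ 2 * s ^ (68 * k + 23) →
  ∃ X : Finset (W k), (∀ x ∈ X, ∀ c, |x c| ≤ A * ((s ^ 2 : ℕ) : ℤ) ^ (wt c)) ∧
    (⟨0, zin ![1, -(s : ℤ)]⟩ : Gp k) ∈ HX X ∧
    (∃ z : Fin 2 → ℤ, (⟨0, zin z⟩ : Gp k) ∈ HX X ∧ (s : ℤ) * z 0 + z 1 = p) ∧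
    (⟨0, zin ![0, 1]⟩ : Gp k) ∉ HX X

/-- LWB: every quotient which separates is large. -/
def LwbStmt : Prop := ∀ (k : ℕ) (s : ℤ) (p : ℕ), p.Prime → p ≠ 2 → ∀ H : Subgroup (Gp k),
  (⟨0, zin ![1, -s]⟩ : Gp k) ∈ H →
  (∃ z : Fin 2 → ℤ, (⟨0, zin z⟩ : Gp k) ∈ H ∧ s * z 0 + z 1 = p) →
  ((p ^ (16 * k + 5) : ℕ) : ℕ∞) ≤ relDepth H (⟨0, zin ![0, 1]⟩ : Gp k)

/-- LWC: the lower bound. -/
def LwcStmt : Prop := ∀ (k : ℕ), 1 ≤ k → ∀ (S : Finset (Gp k)),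
  Subgroup.closure (S : Set (Gp k)) = ⊤ →
  ∃ C : ℕ, ∀ s : ℕ, 2 ≤ s →
    ((s ^ ((68 * k + 23) * (16 * k + 5)) : ℕ) : ℕ∞) ≤ Sub (S : Set (Gp k)) (C * s ^ 2)

/-! ### C. Separation -/

/-- PWR: powers. -/
def PwrStmt : Prop := ∀ (k : ℕ) (g : Gp k) (E : ℕ), ∃ y : W k,
  g ^ (40320 * E) = ⟨40320 * E * g.m, E • y⟩

/-- SP2: the general separation statement. -/
def Sp2Stmt : Prop := ∀ (k : ℕ) (H : Subgroup (Gp k)) (a₀ : ℕ), Tr H a₀ →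
  ∀ (R P : AddSubgroup (W k)) (E : ℕ), 0 < E → P ≤ R → R.index ≠ 0 → P.relIndex R ≤ E →
  (∀ x ∈ R, Dn x ∈ R) → (∀ x y : W k, Bf x y ∈ R) → (∀ w : W k, E • w ∈ P) →
  (∀ x ∈ R, ∀ y : W k, Bf x y ∈ P) → (∀ x ∈ R, (⟨0, x⟩ : Gp k) ∈ H → x ∈ P) →
  ∀ z ∈ R, z ∉ P →
    relDepth H (⟨0, z⟩ : Gp k) ≤ ((a₀ * 40320 * E ^ 5 * R.index : ℕ) : ℕ∞)

/-- FCH: characters of groups of finite exponent. -/
def FchStmt : Prop := ∀ (A : Type) [AddCommGroup A] (E : ℕ), 0 < E → (∀ x : A, E • x = 0) →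
  ∀ a : A, a ≠ 0 → ∃ f : A →+ ZMod E, f a ≠ 0

/-- CHI: characters of `ℤ ^ ι`. -/
def ChiStmt : Prop := ∀ (ι : Type) [Fintype ι] (L : AddSubgroup (ι → ℤ)) (v : ι → ℤ),
  v ∈ sat L → v ∉ L → L.relIndex (sat L) ≠ 0 ∧
    ∃ χ : (ι → ℤ) →+ ZMod (L.relIndex (sat L)), (∀ x ∈ L, χ x = 0) ∧ χ v ≠ 0

/-- SEP: separation of a central element. -/
def SepStmt : Prop := ∀ (k : ℕ) (H : Subgroup (Gp k)) (a₀ : ℕ), Tr H a₀ → ∀ (q ε : ℕ),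
  0 < q → 0 < ε → ∀ χ : (Fin 2 → ℤ) →+ ZMod q, (∀ z ∈ Lam H, χ z = 0) →
  (∀ v ∈ sat (LM H), ε • v ∈ LM H) → ∀ z : Fin 2 → ℤ, χ z ≠ 0 →
    relDepth H (⟨0, zin z⟩ : Gp k) ≤
      ((a₀ * 40320 * (q * ε) ^ 5 * (Rc (k := k) χ).index : ℕ) : ℕ∞)

/-- VSP: separation of an element whose image in `V k` is not in the image of `H`. -/
def VspStmt : Prop := ∀ (k : ℕ) (H : Subgroup (Gp k)) (a₀ : ℕ), Tr H a₀ → ∀ q : ℕ, 0 < q →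
  ∀ ψ : V k →+ ZMod q, (∀ v ∈ LM H, ψ v = 0) → ∀ x : W k, ψ (pv x) ≠ 0 →
    relDepth H (⟨0, x⟩ : Gp k) ≤ ((a₀ * 40320 * q ^ 5 : ℕ) : ℕ∞)

/-- IDX: the index of the radical of a character. -/
def IdxStmt : Prop := ∀ (k q : ℕ), 0 < q → ∀ χ : (Fin 2 → ℤ) →+ ZMod q,
  (Rc (k := k) χ).index ≠ 0 ∧ (Rc (k := k) χ).index ≤ q ^ (16 * k) ∧
  ∀ g : ℕ, 0 < g → g • χ ![0, 1] = 0 → (Rc (k := k) χ).index ≤ q ^ (14 * k) * g ^ (2 * k)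

/-! ### D. Lattices -/

/-- TDT: torsion of `ℤ ^ ι / L` and minors. -/
def TdtStmt : Prop := ∀ (ι : Type) [Fintype ι] [DecidableEq ι] (r : ℕ) (x : Fin r → (ι → ℤ))
  (c : Fin r → ι), (Matrix.of fun i j => x i (c j)).det ≠ 0 →
  (AddSubgroup.closure (Set.range x)).relIndex (sat (AddSubgroup.closure (Set.range x))) ≠ 0 ∧
  (AddSubgroup.closure (Set.range x)).relIndex (sat (AddSubgroup.closure (Set.range x))) ∣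
    (Matrix.of fun i j => x i (c j)).det.natAbs

/-- STR: the main inequality. -/
def StrStmt : Prop := ∀ (ι : Type) [Fintype ι] [DecidableEq ι] (X : Finset ((ι → ℤ) × ℤ))
  (b : ι → ℕ) (bl : ℕ), (∀ x ∈ X, (∀ c, |x.1 c| ≤ b c) ∧ |x.2| ≤ bl) →
  ∀ D : ℕ, 0 < D →
  (∀ t : ℤ, ((0 : ι → ℤ), t) ∈ AddSubgroup.closure (X : Set ((ι → ℤ) × ℤ)) ↔ (D : ℤ) ∣ t) →
  ∀ L : AddSubgroup (ι → ℤ), L = AddSubgroup.closure (Prod.fst '' (X : Set ((ι → ℤ) × ℤ))) →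
  ∀ I J : Finset ι, I.card = dm (LQ L) → (∀ x ∈ LQ L, (∀ c ∈ I, x c = 0) → x = 0) →
  ∀ (A : Submodule ℚ (ι → ℚ)) (q₀ : ℕ),
  (∀ x : ι → ℤ, castv x ∈ A → ∀ c ∈ I, c ∉ J → (q₀ : ℤ) ∣ x c) →
  L.relIndex (sat L) ≠ 0 ∧
  D * L.relIndex (sat L) * q₀ ^ (dm (LQ L ⊓ A) - (I ∩ J).card) ≤
    (I.card + 1).factorial * (∏ c ∈ I, b c) * bl

/-- TOR: bound for the torsion with a given set of coordinates. -/
def TorStmt : Prop := ∀ (ι : Type) [Fintype ι] [DecidableEq ι] (X : Finset (ι → ℤ))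
  (b : ι → ℕ), (∀ x ∈ X, ∀ c, |x c| ≤ b c) →
  ∀ L : AddSubgroup (ι → ℤ), L = AddSubgroup.closure (X : Set (ι → ℤ)) →
  ∀ I : Finset ι, I.card = dm (LQ L) → (∀ x ∈ LQ L, (∀ c ∈ I, x c = 0) → x = 0) →
  L.relIndex (sat L) ≠ 0 ∧ L.relIndex (sat L) ≤ I.card.factorial * ∏ c ∈ I, b c

/-- GRD: the greedy set of coordinates. -/
def GrdStmt : Prop := ∀ (ι : Type) [Fintype ι] [DecidableEq ι] (L : Submodule ℚ (ι → ℚ))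
  (w : ι → ℕ), ∃ I : Finset ι, I.card = dm L ∧ (∀ x ∈ L, (∀ c ∈ I, x c = 0) → x = 0) ∧
    ∀ s : ℕ, (I.filter fun c => s ≤ w c).card = dm (L ⊓ VS fun c => s ≤ w c)

/-- KPL: kernels of bounded operators on lattices. -/
def KplStmt : Prop := ∀ (ι : Type) [Fintype ι] [DecidableEq ι] (Cf : ℕ), ∃ C : ℕ,
  ∀ (b : ι → ℕ), (∀ c, 0 < b c) → ∀ Y : ℕ, 0 < Y → ∀ f : (ι → ℤ) →+ (ι → ℤ),
  (∀ c c', |f (Pi.single c' 1) c| * b c' ≤ Cf * b c) →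
  ∀ L : AddSubgroup (ι → ℤ), (∀ x ∈ L, f x ∈ L) →
  ∀ Ys : Finset (ι → ℤ), (∀ y ∈ Ys, y ∈ L ∧ ∀ c, |y c| ≤ Y * b c) →
  L ≤ L.map f ⊔ AddSubgroup.closure (Ys : Set (ι → ℤ)) →
  ∃ I : Finset ι, (∀ c ∈ I, ∃ x ∈ L ⊓ f.ker, x c ≠ 0) ∧
    (L ⊓ f.ker).relIndex (sat (L ⊓ f.ker)) ≠ 0 ∧
    (L ⊓ f.ker).relIndex (sat (L ⊓ f.ker)) ≤ C * Y ^ I.card * ∏ c ∈ I, b c

/-! ### E. Linear algebra -/

/-- ISO: dimensions of isotropic subspaces (`l1 ≠ 0`). -/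
def IsoStmt : Prop := ∀ (k : ℕ) (l0 l1 : ℚ) (L : Submodule ℚ (Ix k → ℚ)), Iso l0 l1 L →
  l1 ≠ 0 →
  dm L ≤ 11 * k + 3 ∧ dm (L ⊓ VS fun c => 2 ≤ wtI c) ≤ 10 * k + 2 ∧
  dm (L ⊓ VS fun c => 3 ≤ wtI c) ≤ 9 * k + 1 ∧ dm (L ⊓ VS fun c => 4 ≤ wtI c) ≤ 4 * k ∧
  dm (L ⊓ VS fun c => 2 ≤ wtI c ∨ isS a3 c) ≤ 11 * k + 2 ∧
  dm (L ⊓ VS fun c => isS b3 c ∨ isS c3 c) + dm (L ⊓ VS fun c => isS u3 c ∨ isS v3 c) ≤ 2 * k ∧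
  (l0 ≠ 0 → dm (L ⊓ VS fun c => isS a3 c ∨ isS b3 c) +
    dm (L ⊓ VS fun c => isS u3 c ∨ isS v3 c) ≤ 2 * k) ∧
  dm L + k ≤ dm (L ⊓ Rad k l0 l1) + (11 * k + 3) ∧
  dm (L ⊓ VS fun c => 3 ≤ wtI c) + 2 * k ≤
    dm (L ⊓ VS fun c => isS u3 c ∨ isS v3 c) + (9 * k + 1)

/-- IS0: dimensions of isotropic subspaces (`l1 = 0`). -/
def Is0Stmt : Prop := ∀ (k : ℕ) (l0 : ℚ) (L : Submodule ℚ (Ix k → ℚ)), Iso l0 0 L → l0 ≠ 0 →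
  dm L ≤ 12 * k + 3 ∧ dm (L ⊓ VS fun c => 2 ≤ wtI c) ≤ 11 * k + 2 ∧
  dm (L ⊓ VS fun c => 3 ≤ wtI c) ≤ 9 * k + 1 ∧ dm (L ⊓ VS fun c => 4 ≤ wtI c) ≤ 4 * k

/-- TIS: totally isotropic subspaces. -/
def TisStmt : Prop := ∀ (k : ℕ) (L : Submodule ℚ (Ix k → ℚ)),
  (∀ x ∈ L, ∀ y ∈ L, bf0 x y = 0 ∧ bf1 x y = 0) →
  dm L + 2 * dm (L ⊓ VS fun c => 3 ≤ wtI c) ≤ 28 * k + 5

/-- WGT: sets of coordinates for isotropic subspaces. -/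
def WgtStmt : Prop := ∀ (k : ℕ) (l0 l1 : ℚ) (L : Submodule ℚ (Ix k → ℚ)), Iso l0 l1 L →
  l1 ≠ 0 → ∃ δ : ℕ,
  (∃ I : Finset (Ix k), I.card = dm L ∧ (∀ x ∈ L, (∀ c ∈ I, x c = 0) → x = 0) ∧
    ∑ c ∈ I, wtI c + δ = 34 * k + 6) ∧
  (∃ I : Finset (Ix k), I.card = dm L ∧ (∀ x ∈ L, (∀ c ∈ I, x c = 0) → x = 0) ∧
    ∑ c ∈ I, wtI c ≤ 34 * k + 6 + 3 * δ ∧
    ∀ J : Finset (Ix k), (∀ c ∈ J, isS b3 c ∨ isS c3 c) → (I ∩ J).card ≤ δ) ∧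
  (l0 ≠ 0 → ∃ I : Finset (Ix k), I.card = dm L ∧ (∀ x ∈ L, (∀ c ∈ I, x c = 0) → x = 0) ∧
    ∑ c ∈ I, wtI c ≤ 35 * k + 6 + 3 * δ ∧
    ∀ J : Finset (Ix k), (∀ c ∈ J, isS a3 c ∨ isS b3 c) → (I ∩ J).card ≤ δ) ∧
  k ≤ dm (L ⊓ Rad k l0 l1) + δ ∧ 2 * k ≤ dm (L ⊓ VS fun c => isS u3 c ∨ isS v3 c) + δ

/-- WG0: sets of coordinates, the two other cases. -/
def Wg0Stmt : Prop := ∀ (k : ℕ) (L : Submodule ℚ (Ix k → ℚ)),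
  ((∀ x ∈ L, ∀ y ∈ L, bf0 x y = 0) →
    ∃ I : Finset (Ix k), I.card = dm L ∧ (∀ x ∈ L, (∀ c ∈ I, x c = 0) → x = 0) ∧
      ∑ c ∈ I, wtI c ≤ 36 * k + 6) ∧
  ((∀ x ∈ L, ∀ y ∈ L, bf0 x y = 0 ∧ bf1 x y = 0) →
    ∃ I : Finset (Ix k), I.card = dm L ∧ (∀ x ∈ L, (∀ c ∈ I, x c = 0) → x = 0) ∧
      2 * ∑ c ∈ I, wtI c ≤ 67 * k + 12)

/-- RPA: two independent pairs modulo a prime. -/
def RpaStmt : Prop := ∀ (k : ℕ) (l0 l1 : ℤ) (F : AddSubgroup (V k)), 10 ≤ k → IsCoprime l0 l1 →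
  sat F = F → k ≤ dm (LQ F ⊓ Rad k l0 l1) + 4 →
  2 * k ≤ dm (LQ F ⊓ VS fun c => isS u3 c ∨ isS v3 c) + 4 →
  ∀ m0 m1 : ℤ, m0 * l1 - m1 * l0 = 1 → ∀ p : ℕ, p.Prime →
  ∃ x y : Fin 2 → V k, (∀ i, x i ∈ F ∧ castv (x i) ∈ Rad k l0 l1) ∧
    (∀ i, y i ∈ F ∧ castv (y i) ∈ VS (fun c => isS u3 c ∨ isS v3 c)) ∧
    ¬ ((p : ℤ) ∣ (Matrix.of fun i j => m0 * bf0 (x i) (y j) + m1 * bf1 (x i) (y j)).det)

/-- RPB: a sublattice on which the second form is divisible by `g` has large index. -/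
def RpbStmt : Prop := ∀ (k : ℕ) (l0 l1 : ℤ) (F L : AddSubgroup (V k)), 10 ≤ k →
  IsCoprime l0 l1 → sat F = F → k ≤ dm (LQ F ⊓ Rad k l0 l1) + 4 →
  2 * k ≤ dm (LQ F ⊓ VS fun c => isS u3 c ∨ isS v3 c) + 4 →
  L ≤ F → L.relIndex F ≠ 0 →
  ∀ m0 m1 : ℤ, m0 * l1 - m1 * l0 = 1 → ∀ g : ℕ,
  (∀ x ∈ L, ∀ y ∈ L, (g : ℤ) ∣ m0 * bf0 x y + m1 * bf1 x y) → g ^ 2 ∣ L.relIndex F

/-! ### F. Case A -/

/-- LAT: the lattice inequalities, `l1 ≠ 0`. -/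
def LatStmt : Prop := ∀ (k A : ℕ), ∃ C : ℕ, ∀ n : ℕ, 1 ≤ n → ∀ X : Finset (W k),
  (∀ x ∈ X, ∀ c, |x c| ≤ A * (n : ℤ) ^ (wt c)) → ∀ l0 l1 : ℤ, IsCoprime l0 l1 → l1 ≠ 0 →
  (∀ x ∈ X, ∀ y ∈ X, l0 * bz x y 0 + l1 * bz x y 1 = 0) → ∀ D : ℕ, 0 < D →
  (∀ t : ℤ, (∃ z ∈ Lam (HX X), l0 * z 0 + l1 * z 1 = t) ↔ (D : ℤ) ∣ t) →
  ∃ δ : ℕ, (LM (HX X)).relIndex (sat (LM (HX X))) ≠ 0 ∧
  D * (LM (HX X)).relIndex (sat (LM (HX X))) * n ^ δ ≤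
    C * n ^ (34 * k + 11) * max l0.natAbs l1.natAbs ∧
  D * (LM (HX X)).relIndex (sat (LM (HX X))) * l1.natAbs ^ (2 * (k - 2 * δ)) ≤
    C * n ^ (34 * k + 11 + 3 * δ) * max l0.natAbs l1.natAbs ∧
  (l0 ≠ 0 → D * (LM (HX X)).relIndex (sat (LM (HX X))) * l0.natAbs ^ (2 * (k - 2 * δ)) ≤
    C * n ^ (35 * k + 11 + 3 * δ) * max l0.natAbs l1.natAbs) ∧
  k ≤ dm (LQ (LM (HX X)) ⊓ Rad k l0 l1) + δ ∧
  2 * k ≤ dm (LQ (LM (HX X)) ⊓ VS fun c => isS u3 c ∨ isS v3 c) + δ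

/-- LA0: the lattice inequality, `l1 = 0`. -/
def La0Stmt : Prop := ∀ (k A : ℕ), ∃ C : ℕ, ∀ n : ℕ, 1 ≤ n → ∀ X : Finset (W k),
  (∀ x ∈ X, ∀ c, |x c| ≤ A * (n : ℤ) ^ (wt c)) →
  (∀ x ∈ X, ∀ y ∈ X, bz x y 0 = 0) → ∀ D : ℕ, 0 < D →
  (∀ t : ℤ, (∃ z ∈ Lam (HX X), z 0 = t) ↔ (D : ℤ) ∣ t) →
  (LM (HX X)).relIndex (sat (LM (HX X))) ≠ 0 ∧
  D * (LM (HX X)).relIndex (sat (LM (HX X))) ≤ C * n ^ (36 * k + 11)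

/-- CRU: crude bound for the torsion of a quotient of `V k`. -/
def CruStmt : Prop := ∀ (k A σ : ℕ), ∃ C : ℕ, ∀ n : ℕ, 1 ≤ n → ∀ X : Finset (V k),
  (∀ x ∈ X, ∀ c, |x c| ≤ A * (n : ℤ) ^ (wtI c + σ)) →
  (AddSubgroup.closure (X : Set (V k))).relIndex
    (sat (AddSubgroup.closure (X : Set (V k)))) ≠ 0 ∧
  (AddSubgroup.closure (X : Set (V k))).relIndex
    (sat (AddSubgroup.closure (X : Set (V k)))) ≤ C * n ^ (46 * k + 6 + σ * (19 * k + 3))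

/-- REG: the arithmetic of the case `l1 ≠ 0`. -/
def RegStmt : Prop := ∀ (k C₀ : ℕ), 100 ≤ k → ∃ C : ℕ, ∀ n : ℕ, 1 ≤ n →
  ∀ (δ D ε g l0 l1 : ℕ), 0 < ε → 0 < l1 →
  D * ε * n ^ δ ≤ C₀ * n ^ (34 * k + 11) * max l0 l1 →
  D * ε * l1 ^ (2 * (k - 2 * δ)) ≤ C₀ * n ^ (34 * k + 11 + 3 * δ) * max l0 l1 →
  (l0 ≠ 0 → D * ε * l0 ^ (2 * (k - 2 * δ)) ≤ C₀ * n ^ (35 * k + 11 + 3 * δ) * max l0 l1) →
  g * max l0 l1 ≤ C₀ * n ^ 5 → (δ ≤ 4 → g ^ 2 ∣ ε) →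
  ((g * D) ^ (16 * k + 5) * ε ^ 5) ^ 2 ≤ C * n ^ ((68 * k + 23) * (16 * k + 5))

/-- CA2: all commutators span a group of rank two. -/
def Ca2Stmt : Prop := ∀ k A : ℕ, 100 ≤ k → ∃ C : ℕ, ∀ n : ℕ, 1 ≤ n → ∀ X : Finset (W k),
  (∀ x ∈ X, ∀ c, |x c| ≤ A * (n : ℤ) ^ (wt c)) →
  (∃ x ∈ X, ∃ y ∈ X, ∃ x' ∈ X, ∃ y' ∈ X,
    bz x y 0 * bz x' y' 1 - bz x y 1 * bz x' y' 0 ≠ 0) →
  ∀ z : Fin 2 → ℤ, z ∈ sat (Lam (HX X)) → z ∉ Lam (HX X) → Sm C n (HX X) ⟨0, zin z⟩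

/-- CA0: the group is abelian. -/
def Ca0Stmt : Prop := ∀ k A : ℕ, 100 ≤ k → ∃ C : ℕ, ∀ n : ℕ, 1 ≤ n → ∀ X : Finset (W k),
  (∀ x ∈ X, ∀ c, |x c| ≤ A * (n : ℤ) ^ (wt c)) →
  (∀ x ∈ X, ∀ y ∈ X, bz x y = 0) →
  ∀ z : Fin 2 → ℤ, z ∈ sat (Lam (HX X)) → z ∉ Lam (HX X) → Sm C n (HX X) ⟨0, zin z⟩

/-- CA1: all commutators span a group of rank one. -/
def Ca1Stmt : Prop := ∀ k A : ℕ, 100 ≤ k → ∃ C : ℕ, ∀ n : ℕ, 1 ≤ n → ∀ X : Finset (W k),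
  (∀ x ∈ X, ∀ c, |x c| ≤ A * (n : ℤ) ^ (wt c)) → ∀ l0 l1 : ℤ, IsCoprime l0 l1 →
  (∀ x ∈ X, ∀ y ∈ X, l0 * bz x y 0 + l1 * bz x y 1 = 0) →
  (∃ x ∈ X, ∃ y ∈ X, bz x y ≠ 0) →
  ∀ z : Fin 2 → ℤ, z ∈ sat (Lam (HX X)) → z ∉ Lam (HX X) → Sm C n (HX X) ⟨0, zin z⟩

/-- CSA: case A, all elements of `H` have `m = 0`. -/
def CsaStmt : Prop := ∀ k A : ℕ, 100 ≤ k → ∃ C : ℕ, ∀ n : ℕ, 1 ≤ n → ∀ X : Finset (W k),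
  (∀ x ∈ X, ∀ c, |x c| ≤ A * (n : ℤ) ^ (wt c)) → ∀ g : Gp k, |g.m| ≤ A * n →
  (∀ c, |g.x c| ≤ A * (n : ℤ) ^ (wt c)) → g ∉ HX X → Sm C n (HX X) g

/-! ### G. Case B -/

/-- The operator `f = conj h - 1` on vectors. -/
def fop {k : ℕ} (h : Gp k) : W k →+ W k :=
  tp h.m + 2 • (Bh k h.x).comp (tp h.m) - AddMonoidHom.id (W k)

/-- BFS: a short element of `H` whose first coordinate generates all first coordinates. -/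
def BfsStmt : Prop := ∀ k A : ℕ, ∃ C : ℕ, ∀ n : ℕ, 1 ≤ n → ∀ X : Finset (Gp k),
  (∀ x ∈ X, |x.m| ≤ A * n ∧ ∀ c, |x.x c| ≤ A * (n : ℤ) ^ (wt c)) → (∃ x ∈ X, x.m ≠ 0) →
  ∃ h ∈ Subgroup.closure (X : Set (Gp k)), 0 < h.m ∧ h.m ≤ A * n ∧ (∀ x ∈ X, h.m ∣ x.m) ∧
    (∀ c : Ix k, |h.x (Sum.inl c)| ≤ C * (n : ℤ) ^ (wtI c + 1)) ∧
    ∀ j, |h.x (Sum.inr j)| ≤ C * (n : ℤ) ^ 7

/-- SIZ: sizes of the elements `x h ^ (-l)`. -/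
def SizStmt : Prop := ∀ k A : ℕ, ∃ C : ℕ, ∀ n : ℕ, 1 ≤ n → ∀ h x : Gp k, 0 < h.m →
  h.m ≤ A * n → (∀ c : Ix k, |h.x (Sum.inl c)| ≤ A * (n : ℤ) ^ (wtI c + 1)) →
  (∀ j, |h.x (Sum.inr j)| ≤ A * (n : ℤ) ^ 7) → |x.m| ≤ A * n →
  (∀ c, |x.x c| ≤ A * (n : ℤ) ^ (wt c)) → ∀ l : ℤ, x.m = l * h.m →
  (x * h ^ (-l)).m = 0 ∧
  (∀ c : Ix k, |(x * h ^ (-l)).x (Sum.inl c)| ≤ C * (n : ℤ) ^ (wtI c + 2)) ∧
  ∀ j, |(x * h ^ (-l)).x (Sum.inr j)| ≤ C * (n : ℤ) ^ 9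

/-- HMG: the structure of `H` when it is generated by `h` and elements with `m = 0`. -/
def HmgStmt : Prop := ∀ (k : ℕ) (h : Gp k) (Ys : Finset (W k)) (H : Subgroup (Gp k)), 0 < h.m →
  H = Subgroup.closure (insert h ((fun x => (⟨0, x⟩ : Gp k)) '' (Ys : Set (W k)))) →
  (∀ g ∈ H, h.m ∣ g.m) ∧
  LM H = AddSubgroup.closure {v | ∃ y ∈ Ys, ∃ s < 4, v = pv ((fop h)^[s] y)} ∧
  ∃ L : AddSubgroup (W k), (∀ x ∈ L, fop h x ∈ L) ∧ (∀ y ∈ Ys, y ∈ L) ∧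
    (∀ y ∈ Ys, ∀ y' ∈ Ys, ∀ s < 4, ∀ s' < 4, Bf ((fop h)^[s] y) ((fop h)^[s'] y') ∈ L) ∧
    L ≤ L.map (fop h) ⊔ AddSubgroup.closure ((Ys : Set (W k)) ∪
      {x | ∃ y ∈ Ys, ∃ y' ∈ Ys, ∃ s < 4, ∃ s' < 4, x = Bf ((fop h)^[s] y) ((fop h)^[s'] y')}) ∧
    (∀ z, zin z ∈ L → 2 • z ∈ Lam H) ∧ (∀ z ∈ Lam H, zin z ∈ L)

/-- FSZ: sizes for the operator `f`. -/
def FszStmt : Prop := ∀ k A : ℕ, ∃ C : ℕ, ∀ n : ℕ, 1 ≤ n → ∀ h : Gp k, 0 < h.m →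
  h.m ≤ A * n → (∀ c : Ix k, |h.x (Sum.inl c)| ≤ A * (n : ℤ) ^ (wtI c + 1)) →
  (∀ c c' : Jx k, |fop h (Pi.single c' 1) c| * ((n : ℤ) ^ (wt c' + if wt c' = 5 then 2 else 0)) ≤
    C * (n : ℤ) ^ (wt c + if wt c = 5 then 2 else 0)) ∧
  (∀ x : W k, fop h x = 0 → ∀ c : Ix k, x (Sum.inl c) ≠ 0 →
    c = Sum.inr 2 ∨ isS a1 c ∨ isS b1 c ∨ isS c1 c ∨ isS yb c ∨ isS yc c)

/-- CBZ: case B, the central step. -/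
def CbzStmt : Prop := ∀ k A : ℕ, ∃ C : ℕ, ∀ n : ℕ, 1 ≤ n → ∀ (h : Gp k) (Ys : Finset (W k))
  (H : Subgroup (Gp k)), 0 < h.m → h.m ≤ A * n →
  (∀ c : Ix k, |h.x (Sum.inl c)| ≤ A * (n : ℤ) ^ (wtI c + 1)) →
  (∀ y ∈ Ys, (∀ c : Ix k, |y (Sum.inl c)| ≤ A * (n : ℤ) ^ (wtI c + 2)) ∧
    ∀ j, |y (Sum.inr j)| ≤ A * (n : ℤ) ^ 9) →
  H = Subgroup.closure (insert h ((fun x => (⟨0, x⟩ : Gp k)) '' (Ys : Set (W k)))) →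
  ((LM H).relIndex (sat (LM H)) ≠ 0 ∧ (LM H).relIndex (sat (LM H)) ≤ C * n ^ (84 * k + 12)) ∧
  ((Lam H).relIndex (sat (Lam H)) ≠ 0 ∧ (Lam H).relIndex (sat (Lam H)) ≤ C * n ^ (29 * k + 23))

/-- CSB: case B, some element of `H` has `m ≠ 0`. -/
def CsbStmt : Prop := ∀ k A : ℕ, 100 ≤ k → ∃ C : ℕ, ∀ n : ℕ, 1 ≤ n → ∀ X : Finset (Gp k),
  (∀ x ∈ X, |x.m| ≤ A * n ∧ ∀ c, |x.x c| ≤ A * (n : ℤ) ^ (wt c)) → (∃ x ∈ X, x.m ≠ 0) →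
  ∀ g : Gp k, |g.m| ≤ A * n → (∀ c, |g.x c| ≤ A * (n : ℤ) ^ (wt c)) →
  g ∉ Subgroup.closure (X : Set (Gp k)) → Sm C n (Subgroup.closure (X : Set (Gp k))) g

/-! ### H. The result -/

/-- UPB: the upper bound. -/
def UpbStmt : Prop := ∀ (k : ℕ), 100 ≤ k → ∀ S : Finset (Gp k),
  Subgroup.closure (S : Set (Gp k)) = ⊤ → ∃ C : ℕ, ∀ n : ℕ, 1 ≤ n →
    Sub (S : Set (Gp k)) n ^ 2 ≤ ((C * n ^ ((68 * k + 23) * (16 * k + 5)) : ℕ) : ℕ∞)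

/-- FIN: the final statement. -/
def FinStmt : Prop := ∃ (G : Type) (_ : Group G), Group.FG G ∧ Group.IsNilpotent G ∧
  (∀ (g : G) (n : ℕ), 0 < n → g ^ n = 1 → g = 1) ∧
  ∀ S : Finset G, Subgroup.closure (S : Set G) = ⊤ →
    ∀ K : ℕ, ¬ Equ (Sub (S : Set G)) (fun n => (n : ℕ∞) ^ K)

end Pool.Agent.SBG
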