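import Pool.Agent.Helper92_SBG.Str

namespace Pool.Agent.SBG.H92

open Pool.Agent.SBG

section adapted

variable {ι : Type} [Fintype ι] [DecidableEq ι]

/-- `castv` as a `ℤ`-linear map. -/
def castL (ι : Type) : (ι → ℤ) →ₗ[ℤ] (ι → ℚ) where
  toFun := castv
  map_add' := castv_add
  map_smul' := by
    intro a x
    funext i
    simp [castv]

lemma castL_inj (ι : Type) : Function.Injective (castL ι) := by
  intro x y h
  funext i
  have := congrFun h i
  change ((x i : ℤ) : ℚ) = y i at this
  exact_mod_cast this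

/-- Adapted bases. -/
lemma exists_adapted (L : AddSubgroup (ι → ℤ)) (A : Submodule ℚ (ι → ℚ)) :
    ∃ (n m : ℕ) (f : Fin n → (ι → ℤ)) (g : Fin m ↪ Fin n), n = dm (LQ L) ∧ dm (LQ L ⊓ A) ≤ m ∧
      LinearIndependent ℤ f ∧ (∀ i, f i ∈ sat L) ∧ (∀ i, castv (f (g i)) ∈ A) ∧
      ∀ x ∈ sat L, x ∈ AddSubgroup.closure (Set.range f) := by
  set FS : Submodule ℤ (ι → ℤ) := AddSubgroup.toIntSubmodule (sat L) with hFS
  obtain ⟨n, b0⟩ := Submodule.basisOfPid (Pi.basisFun ℤ ι) FS
  let A' : Submodule ℤ FS :=
    { carrier := {x | castv x.1 ∈ A}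
      zero_mem' := by
        change castv (0 : ι → ℤ) ∈ A
        rw [castv_zero]; exact A.zero_mem
      add_mem' := by
        intro x y hx hy
        change castv (x.1 + y.1) ∈ A
        rw [castv_add]; exact A.add_mem hx hy
      smul_mem' := by
        intro a x hx
        change castv (a • x.1) ∈ A
        rw [castv_zsmul]; exact A.smul_mem _ hx }
  obtain ⟨m, snf⟩ := Submodule.smithNormalForm b0 A'
  have hmem : ∀ x ∈ sat L, x ∈ AddSubgroup.closure (Set.range fun i => (snf.bM i : ι → ℤ)) := by
    intro x hx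
    rw [← Submodule.span_int_eq_addSubgroupClosure]
    have h1 := snf.bM.mem_span (⟨x, hx⟩ : FS)
    have h2 : FS.subtype (⟨x, hx⟩ : FS) ∈ Submodule.map FS.subtype
        (Submodule.span ℤ (Set.range snf.bM)) := Submodule.mem_map_of_mem h1
    rw [Submodule.map_span, ← Set.range_comp] at h2
    exact h2
  have hli : LinearIndependent ℤ (fun i => (snf.bM i : ι → ℤ)) := by
    have := snf.bM.linearIndependent.map' FS.subtype (Submodule.ker_subtype FS)
    exact this
  have hliQ : LinearIndependent ℚ (fun i => castv (snf.bM i : ι → ℤ)) := by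
    rw [← LinearIndependent.iff_fractionRing ℤ ℚ]
    exact hli.map' (castL ι) (LinearMap.ker_eq_bot.mpr (castL_inj ι))
  have hspan : Submodule.span ℚ (Set.range fun i => castv (snf.bM i : ι → ℤ)) = LQ L := by
    apply le_antisymm
    · rw [Submodule.span_le]
      rintro _ ⟨i, rfl⟩
      exact castv_mem_LQ (snf.bM i).2
    · rw [LQ, Submodule.span_le]
      rintro _ ⟨x, hx, rfl⟩
      have h1 := hmem x (le_sat L hx)
      refine AddSubgroup.closure_induction (p := fun y _ => castv y ∈ Submodule.span ℚ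
        (Set.range fun i => castv (snf.bM i : ι → ℤ))) ?_ ?_ ?_ ?_ h1
      · rintro _ ⟨i, rfl⟩; exact Submodule.subset_span ⟨i, rfl⟩
      · rw [castv_zero]; exact Submodule.zero_mem _
      · intro y z _ _ h1 h2; rw [castv_add]; exact Submodule.add_mem _ h1 h2
      · intro y _ h1; rw [castv_neg]; exact Submodule.neg_mem _ h1
  have hAm : ∀ i, castv (snf.bM (snf.f i) : ι → ℤ) ∈ A := by
    intro i
    have h1 : castv ((snf.bN i : FS) : ι → ℤ) ∈ A := (snf.bN i).2
    rw [snf.snf i] at h1
    change castv (snf.a i • (snf.bM (snf.f i) : ι → ℤ)) ∈ A at h1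
    rw [castv_zsmul] at h1
    have ha : snf.a i ≠ 0 := by
      intro h0
      have h2 := snf.snf i
      rw [h0, zero_smul] at h2
      exact snf.bN.ne_zero i (Subtype.ext h2)
    have h3 := A.smul_mem ((snf.a i : ℚ)⁻¹) h1
    rwa [smul_smul, inv_mul_cancel₀ (by exact_mod_cast ha), one_smul] at h3
  refine ⟨n, m, fun i => (snf.bM i : ι → ℤ), snf.f, ?_, ?_, hli, fun i => (snf.bM i).2, hAm, hmem⟩
  · have h1 := finrank_span_eq_card hliQ
    rw [hspan, Fintype.card_fin] at h1
    exact h1.symm
  · have hle : LQ L ⊓ A ≤ Submodule.span ℚ (Set.range fun i => castv ((snf.bN i : FS) : ι → ℤ)) := by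
      rintro y ⟨hy1, hy2⟩
      obtain ⟨N, hN, l, hl, h1⟩ := LQ_den L hy1
      have hlA : castv l ∈ A := by rw [← h1]; exact A.smul_mem _ hy2
      have h2 := snf.bN.mem_span (⟨⟨l, le_sat L hl⟩, hlA⟩ : A')
      have h3 : castv l ∈ Submodule.span ℚ (Set.range fun i => castv ((snf.bN i : FS) : ι → ℤ)) := by
        refine Submodule.span_induction (p := fun (y : A') _ => castv ((y : FS) : ι → ℤ) ∈
          Submodule.span ℚ (Set.range fun i => castv ((snf.bN i : FS) : ι → ℤ))) ?_ ?_ ?_ ?_ h2
        · rintro _ ⟨i, rfl⟩; exact Submodule.subset_span ⟨i, rfl⟩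
        · change castv (0 : ι → ℤ) ∈ _
          rw [castv_zero]; exact Submodule.zero_mem _
        · intro y z _ _ h1 h2
          change castv (((y : FS) : ι → ℤ) + ((z : FS) : ι → ℤ)) ∈ _
          rw [castv_add]; exact Submodule.add_mem _ h1 h2
        · intro a y _ h1
          change castv (a • ((y : FS) : ι → ℤ)) ∈ _
          rw [castv_zsmul]; exact Submodule.smul_mem _ _ h1
      rw [← h1] at h3
      have h4 := Submodule.smul_mem _ ((N : ℚ)⁻¹) h3
      rwa [smul_smul, inv_mul_cancel₀ (by exact_mod_cast hN.ne'), one_smul] at h4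
    refine (Submodule.finrank_mono hle).trans ?_
    have := finrank_range_le_card (R := ℚ) (fun i => castv ((snf.bN i : FS) : ι → ℤ))
    rwa [Fintype.card_fin] at this

end adapted

/-- Divisibility of a determinant with many divisible entries. -/
lemma det_dvd {κ : Type} [Fintype κ] [DecidableEq κ] (M : Matrix κ κ ℤ) (S T : Finset κ) (q : ℤ)
    (e : ℕ) (h : ∀ i ∈ S, ∀ j, j ∉ T → q ∣ M i j) (he : e + T.card ≤ S.card) : q ^ e ∣ M.det := by
  rw [Matrix.det_apply]
  refine Finset.dvd_sum fun σ _ => ?_
  have h1 : q ^ e ∣ ∏ i, M (σ i) i := by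
    set U : Finset κ := Finset.univ.filter fun i => σ i ∈ S ∧ i ∉ T with hU
    have hcard : e ≤ U.card := by
      have h2 : (Finset.univ.filter fun i => σ i ∈ S).card = S.card := by
        have : (Finset.univ.filter fun i => σ i ∈ S) = S.map σ.symm.toEmbedding := by
          ext i
          simp only [Finset.mem_filter, Finset.mem_univ, true_and, Finset.mem_map_equiv,
            Equiv.symm_symm]
        rw [this, Finset.card_map]
      have h3 : (Finset.univ.filter fun i => σ i ∈ S) ⊆ U ∪ T := by
        intro i hi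
        rw [Finset.mem_filter] at hi
        by_cases hT : i ∈ T
        · exact Finset.mem_union_right _ hT
        · exact Finset.mem_union_left _ (by
            rw [hU, Finset.mem_filter]; exact ⟨Finset.mem_univ _, hi.2, hT⟩)
      have h4 := (Finset.card_le_card h3).trans (Finset.card_union_le U T)
      omega
    have h5 : ∏ i ∈ U, M (σ i) i ∣ ∏ i, M (σ i) i :=
      Finset.prod_dvd_prod_of_subset _ _ _ (Finset.subset_univ U)
    have h6 : q ^ U.card ∣ ∏ i ∈ U, M (σ i) i := by
      rw [← Finset.prod_const]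
      refine Finset.prod_dvd_prod_of_dvd _ _ fun i hi => ?_
      rw [hU, Finset.mem_filter] at hi
      exact h _ hi.2.1 _ hi.2.2
    exact ((pow_dvd_pow q hcard).trans h6).trans h5
  rcases Int.units_eq_one_or (Equiv.Perm.sign σ) with hs | hs
  · rw [hs, one_smul]; exact h1
  · rw [hs, Units.neg_smul, one_smul]; exact (dvd_neg).mpr h1

/-- STR -/
theorem str : StrStmt := by
  classical
  intro ι _ _ X b bl hX D hD0 hD L hL I J hI hinj A q₀ hA
  -- bounded generators of `L`
  have hLX : L = AddSubgroup.closure ((X.image Prod.fst : Finset (ι → ℤ)) : Set (ι → ℤ)) := by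
    rw [hL, Finset.coe_image]
  have hb1 : ∀ x ∈ X.image Prod.fst, ∀ c, |x c| ≤ b c := by
    intro x hx c
    obtain ⟨y, hy, rfl⟩ := Finset.mem_image.mp hx
    exact (hX y hy).1 c
  obtain ⟨hne, -⟩ := tor ι (X.image Prod.fst) b hb1 L hLX I hI hinj
  refine ⟨hne, ?_⟩
  obtain ⟨n, m, f, g, hn, hm, hli, hfs, hfA, hgen⟩ := exists_adapted L A
  have hcard : Fintype.card (Fin n) = Fintype.card I := by
    rw [Fintype.card_fin, Fintype.card_coe, hn, hI]
  let e : Fin n ≃ I := Fintype.equivOfCardEq hcard
  set M : Matrix I I ℤ := Matrix.of fun i j => f (e.symm i) j with hM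
  set F := sat L with hF
  -- the determinant is not zero
  have hdet : M.det ≠ 0 := by
    intro h0
    obtain ⟨v, hv, hv0⟩ := Matrix.exists_vecMul_eq_zero_iff.mpr h0
    have h1 : (∑ i, v i • f (e.symm i)) = 0 := by
      refine prI_inj L I hinj (AddSubgroup.sum_mem _ fun i _ => AddSubgroup.zsmul_mem _
        (hfs _) _) ?_
      funext j
      have h2 := congrFun hv0 j
      change (∑ i, v i • f (e.symm i)) (j : ι) = 0
      simpa [Matrix.vecMul, dotProduct, Finset.sum_apply, hM] using h2
    have h2 : LinearIndependent ℤ (fun i : I => f (e.symm i)) := hli.comp _ e.symm.injective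
    have h3 := (Fintype.linearIndependent_iff.mp h2) v h1
    exact hv (funext h3)
  -- divisibility
  have hdvd : (q₀ : ℤ) ^ (dm (LQ L ⊓ A) - (I ∩ J).card) ∣ M.det := by
    set S : Finset I := Finset.univ.map (g.trans e.toEmbedding) with hS
    set T : Finset I := Finset.univ.filter fun j : I => (j : ι) ∈ J with hT
    have hSc : S.card = m := by rw [hS, Finset.card_map, Finset.card_univ, Fintype.card_fin]
    have hTc : T.card ≤ (I ∩ J).card := by
      rw [← Finset.card_map (Function.Embedding.subtype (fun c => c ∈ I))]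
      refine Finset.card_le_card ?_
      intro c hc
      rw [Finset.mem_map] at hc
      obtain ⟨j, hj, rfl⟩ := hc
      rw [hT, Finset.mem_filter] at hj
      exact Finset.mem_inter.mpr ⟨j.2, hj.2⟩
    rcases Nat.lt_or_ge (dm (LQ L ⊓ A)) (I ∩ J).card with hlt | hge
    · rw [Nat.sub_eq_zero_of_le hlt.le, pow_zero]; exact one_dvd _
    · refine det_dvd M S T q₀ _ ?_ (by omega)
      intro i hi j hj
      rw [hS, Finset.mem_map] at hi
      obtain ⟨a, -, rfl⟩ := hi
      have h1 : e.symm ((g.trans e.toEmbedding) a) = g a := by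
        simp
      change (q₀ : ℤ) ∣ f (e.symm ((g.trans e.toEmbedding) a)) j
      rw [h1]
      refine hA _ (hfA a) j j.2 fun hJ => hj ?_
      rw [hT, Finset.mem_filter]
      exact ⟨Finset.mem_univ _, hJ⟩
  -- index of the projection of `F`
  have hFidx : (F.map (prI I)).index = M.det.natAbs := by
    rw [← index_rows' M hdet]
    congr 1
    have h1 : F = AddSubgroup.closure (Set.range f) := by
      apply le_antisymm
      · exact fun x hx => hgen x hx
      · rw [AddSubgroup.closure_le]; rintro _ ⟨i, rfl⟩; exact hfs i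
    rw [h1, AddMonoidHom.map_closure]
    congr 1
    ext y; constructor
    · rintro ⟨_, ⟨i, rfl⟩, rfl⟩
      refine ⟨e i, ?_⟩
      funext j
      change f (e.symm (e i)) j = f i j
      rw [Equiv.symm_apply_apply]
    · rintro ⟨i, rfl⟩
      exact ⟨_, ⟨e.symm i, rfl⟩, rfl⟩
  -- the big lattice
  set Lh := AddSubgroup.closure (X : Set ((ι → ℤ) × ℤ)) with hLh
  let P : ((ι → ℤ) × ℤ) →+ (Option I → ℤ) :=
    { toFun := fun x o => match o with
        | none => x.2
        | some j => x.1 j
      map_zero' := by funext o; cases o <;> rfl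
      map_add' := by intro x y; funext o; cases o <;> rfl }
  let ρ : (Option I → ℤ) →+ (I → ℤ) :=
    { toFun := fun v j => v (some j)
      map_zero' := rfl
      map_add' := fun _ _ => rfl }
  have hρ : Function.Surjective ρ := fun v => ⟨fun o => match o with
    | none => 0
    | some j => v j, rfl⟩
  let Fh : AddSubgroup ((ι → ℤ) × ℤ) := F.comap (AddMonoidHom.fst _ _)
  have hfst : Lh.map (AddMonoidHom.fst (ι → ℤ) ℤ) = L := by
    rw [hLh, AddMonoidHom.map_closure, hL]; rfl
  have hLF : Lh ≤ Fh := by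
    intro x hx
    have : x.1 ∈ L := by rw [← hfst]; exact ⟨x, hx, rfl⟩
    exact le_sat L this
  have hPF : Fh.map P = (F.map (prI I)).comap ρ := by
    ext v; constructor
    · rintro ⟨x, hx, rfl⟩
      exact ⟨x.1, hx, rfl⟩
    · rintro ⟨x, hx, hxv⟩
      refine ⟨(x, v none), hx, ?_⟩
      funext o
      cases o with
      | none => rfl
      | some j => exact congrFun hxv j
  have hPFi : (Fh.map P).index = M.det.natAbs := by
    rw [hPF, AddSubgroup.index_comap_of_surjective _ hρ, hFidx]
  have hPinj : ∀ x ∈ Fh, P x = 0 → x = 0 := by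
    intro x hx h0
    refine Prod.ext ?_ ?_
    · exact prI_inj L I hinj hx (funext fun j => congrFun h0 (some j))
    · exact congrFun h0 none
  have hidx1 : (Lh.map P).index = Lh.relIndex Fh * M.det.natAbs := by
    have h1 : Lh.map P = (Lh.addSubgroupOf Fh).map (P.comp Fh.subtype) := by
      rw [← AddSubgroup.map_map, AddSubgroup.addSubgroupOf_map_subtype, inf_eq_left.mpr hLF]
    have h2 : (P.comp Fh.subtype).ker = ⊥ := by
      rw [eq_bot_iff]
      rintro ⟨x, hx⟩ h0
      have := hPinj x hx h0
      exact Subtype.ext this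
    have h3 : (P.comp Fh.subtype).range = Fh.map P := by
      rw [AddMonoidHom.range_comp, AddSubgroup.range_subtype]
    rw [h1, AddSubgroup.index_map, h2, sup_bot_eq, h3, hPFi]
    rfl
  have hidx2 : Lh.relIndex Fh = D * L.relIndex F := by
    set K0 := (AddMonoidHom.inr (ι → ℤ) ℤ).range with hK0
    have h1 : Lh ⊔ K0 = L.comap (AddMonoidHom.fst _ _) := by
      apply le_antisymm
      · rw [sup_le_iff]
        constructor
        · intro x hx
          change x.1 ∈ L
          rw [← hfst]; exact ⟨x, hx, rfl⟩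
        · rintro _ ⟨t, rfl⟩
          change (0 : ι → ℤ) ∈ L
          exact L.zero_mem
      · intro x hx
        have h2 : x.1 ∈ Lh.map (AddMonoidHom.fst (ι → ℤ) ℤ) := by rw [hfst]; exact hx
        obtain ⟨y, hy, hyx⟩ := h2
        have h3 : x = y + (AddMonoidHom.inr (ι → ℤ) ℤ) (x.2 - y.2) := by
          refine Prod.ext ?_ ?_
          · change x.1 = y.1 + 0
            rw [add_zero]; exact hyx.symm
          · change x.2 = y.2 + (x.2 - y.2); ring
        rw [h3]
        exact AddSubgroup.add_mem_sup hy ⟨_, rfl⟩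
    have h2 : Lh.relIndex (L.comap (AddMonoidHom.fst (ι → ℤ) ℤ)) = D := by
      rw [← h1, AddSubgroup.relIndex_sup_left, hK0, ← AddSubgroup.index_comap]
      have h3 : Lh.comap (AddMonoidHom.inr (ι → ℤ) ℤ) = AddSubgroup.zmultiples (D : ℤ) := by
        ext t
        rw [Int.mem_zmultiples_iff]
        exact hD t
      rw [h3, Int.index_zmultiples, Int.natAbs_natCast]
    have h4 : (L.comap (AddMonoidHom.fst (ι → ℤ) ℤ)).relIndex Fh = L.relIndex F := by
      rw [AddSubgroup.relIndex_comap]
      congr 1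
      exact AddSubgroup.map_comap_eq_self_of_surjective Prod.fst_surjective _
    have h5 : Lh ≤ L.comap (AddMonoidHom.fst (ι → ℤ) ℤ) := by rw [← h1]; exact le_sup_left
    have h6 : L.comap (AddMonoidHom.fst (ι → ℤ) ℤ) ≤ Fh := AddSubgroup.comap_mono (le_sat L)
    rw [← AddSubgroup.relIndex_mul_relIndex _ _ _ h5 h6, h2, h4]
  have hdn : M.det.natAbs ≠ 0 := Int.natAbs_ne_zero.mpr hdet
  have hidx : (Lh.map P).index = D * L.relIndex F * M.det.natAbs := by rw [hidx1, hidx2]
  have hidx0 : (Lh.map P).index ≠ 0 := by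
    rw [hidx]; exact Nat.mul_ne_zero (Nat.mul_ne_zero hD0.ne' hne) hdn
  have hmapP : Lh.map P = AddSubgroup.closure ((X.image P : Finset (Option I → ℤ)) :
      Set (Option I → ℤ)) := by
    rw [hLh, AddMonoidHom.map_closure, Finset.coe_image]
  have hbd := index_le (X.image P) (fun o => match o with
    | none => bl
    | some j => b j) (by
      intro x hx o
      obtain ⟨y, hy, rfl⟩ := Finset.mem_image.mp hx
      cases o with
      | none => exact (hX y hy).2
      | some j => exact (hX y hy).1 j) (by rw [← hmapP]; exact hidx0)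
  rw [← hmapP, hidx, Fintype.card_option, Fintype.card_coe, Fintype.prod_option] at hbd
  have hprod : ∏ j : I, b j = ∏ c ∈ I, b c := Finset.prod_coe_sort I b
  simp only at hbd
  rw [hprod] at hbd
  have hq : q₀ ^ (dm (LQ L ⊓ A) - (I ∩ J).card) ≤ M.det.natAbs := by
    refine Nat.le_of_dvd (Nat.pos_of_ne_zero hdn) ?_
    have := Int.natAbs_dvd_natAbs.mpr hdvd
    rwa [Int.natAbs_pow, Int.natAbs_natCast] at this
  calc D * L.relIndex F * q₀ ^ (dm (LQ L ⊓ A) - (I ∩ J).card)
      ≤ D * L.relIndex F * M.det.natAbs := Nat.mul_le_mul_left _ hq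
    _ ≤ (I.card + 1).factorial * (bl * ∏ c ∈ I, b c) := hbd
    _ = (I.card + 1).factorial * (∏ c ∈ I, b c) * bl := by ring

end Pool.Agent.SBG.H92
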