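import Pool.Agent.Helper92_SBG.Rd

namespace Pool.Agent.SBG.H92

open Pool.Agent.SBG

lemma det_le_weights {κ : Type*} [Fintype κ] [DecidableEq κ] (N : Matrix κ κ ℤ) (w : κ → ℕ)
    (h : ∀ i j, |N i j| ≤ w j) : N.det.natAbs ≤ (Fintype.card κ).factorial * ∏ j, w j := by
  have h1 : |N.det| ≤ ((Fintype.card κ).factorial : ℤ) * ∏ j, (w j : ℤ) := by
    rw [Matrix.det_apply]
    calc |∑ σ : Equiv.Perm κ, Equiv.Perm.sign σ • ∏ i, N (σ i) i|
        ≤ ∑ σ : Equiv.Perm κ, |Equiv.Perm.sign σ • ∏ i, N (σ i) i| :=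
          Finset.abs_sum_le_sum_abs _ _
      _ ≤ ∑ σ : Equiv.Perm κ, ∏ j, (w j : ℤ) := by
          refine Finset.sum_le_sum fun σ _ => ?_
          have : |Equiv.Perm.sign σ • ∏ i, N (σ i) i| = |∏ i, N (σ i) i| := by
            rcases Int.units_eq_one_or (Equiv.Perm.sign σ) with h | h <;> simp [h]
          rw [this, Finset.abs_prod]
          exact Finset.prod_le_prod (fun i _ => abs_nonneg _) (fun i _ => h _ _)
      _ = ((Fintype.card κ).factorial : ℤ) * ∏ j, (w j : ℤ) := by
          rw [Finset.sum_const, Finset.card_univ, Fintype.card_perm, nsmul_eq_mul]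
  have h2 : ((N.det.natAbs : ℕ) : ℤ) ≤ (((Fintype.card κ).factorial * ∏ j, w j : ℕ) : ℤ) := by
    rw [Int.natCast_natAbs]
    push_cast
    exact h1
  exact_mod_cast h2

/-- Index of the row lattice of a nonsingular integer matrix. -/
lemma index_rows {r : ℕ} (N : Matrix (Fin r) (Fin r) ℤ) (h : N.det ≠ 0) :
    (AddSubgroup.closure (Set.range N.row)).index = N.det.natAbs := by
  have hNli : LinearIndependent ℤ N.row := by
    rw [Fintype.linearIndependent_iff]
    intro g hg k
    by_contra hk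
    have h1 : Matrix.vecMul g N = 0 := by
      funext j
      have := congrFun hg j
      simpa [Matrix.vecMul, dotProduct, Matrix.row, Finset.sum_apply] using this
    exact h (Matrix.exists_vecMul_eq_zero_iff.mp ⟨g, fun h => hk (by rw [h]; rfl), h1⟩)
  set W : Submodule ℤ (Fin r → ℤ) := Submodule.span ℤ (Set.range N.row) with hW
  have hWcard : Nat.card ((Fin r → ℤ) ⧸ W) = N.det.natAbs := by
    rw [← Submodule.natAbs_det_basis_change (Pi.basisFun ℤ (Fin r)) W (Module.Basis.span hNli)]
    congr 1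
    rw [Pi.basisFun_det]
    have : (fun k => ((Module.Basis.span hNli k : W) : Fin r → ℤ)) = N := by
      funext k
      rw [Module.Basis.span_apply]
      rfl
    change (Matrix.detRowAlternating (fun k => ((Module.Basis.span hNli k : W) : Fin r → ℤ))) =
      N.det
    rw [this]
    rfl
  have : AddSubgroup.closure (Set.range N.row) = W.toAddSubgroup := by
    rw [hW, Submodule.span_int_eq_addSubgroupClosure]
  rw [this]
  exact hWcard

/-- The projection to given coordinates. -/
def prj {ι : Type} {r : ℕ} (c : Fin r → ι) : (ι → ℤ) →+ (Fin r → ℤ) where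
  toFun x j := x (c j)
  map_zero' := rfl
  map_add' _ _ := rfl

lemma vec_zero {r : ℕ} {N : Matrix (Fin r) (Fin r) ℤ} (h : N.det ≠ 0) {g : Fin r → ℤ}
    (hg : Matrix.vecMul g N = 0) : g = 0 := by
  by_contra hne
  exact h (Matrix.exists_vecMul_eq_zero_iff.mp ⟨g, hne, hg⟩)

lemma mem_closure_range {ι : Type} {r : ℕ} {x : Fin r → (ι → ℤ)} {y : ι → ℤ}
    (hy : y ∈ AddSubgroup.closure (Set.range x)) : ∃ g : Fin r → ℤ, y = ∑ i, g i • x i := by
  rw [← Submodule.span_int_eq_addSubgroupClosure] at hy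
  obtain ⟨g, hg⟩ := (Submodule.mem_span_range_iff_exists_fun ℤ).mp hy
  exact ⟨g, hg.symm⟩

/-- The projection is injective on the saturation. -/
lemma prj_inj {ι : Type} {r : ℕ} (x : Fin r → (ι → ℤ)) (c : Fin r → ι)
    (h : (Matrix.of fun i j => x i (c j)).det ≠ 0) {y : ι → ℤ}
    (hy : y ∈ sat (AddSubgroup.closure (Set.range x))) (h0 : prj c y = 0) : y = 0 := by
  obtain ⟨k, hk, hky⟩ := hy
  obtain ⟨g, hg⟩ := mem_closure_range hky
  have h1 : Matrix.vecMul g (Matrix.of fun i j => x i (c j)) = 0 := by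
    funext j
    have h2 := congrFun hg (c j)
    have h3 : (k • y) (c j) = 0 := by
      have := congrFun h0 j
      change y (c j) = 0 at this
      rw [Pi.smul_apply, this, smul_zero]
    rw [h3] at h2
    simpa [Matrix.vecMul, dotProduct, Finset.sum_apply] using h2.symm
  have hg0 := vec_zero h h1
  rw [hg0] at hg
  simp only [Pi.zero_apply, zero_smul, Finset.sum_const_zero] at hg
  have hk' : k ≠ 0 := hk.ne'
  exact (smul_eq_zero.mp hg).resolve_left hk'

/-- TDT -/
theorem tdt : TdtStmt := by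
  intro ι _ _ r x c h
  set L := AddSubgroup.closure (Set.range x) with hL
  set N : Matrix (Fin r) (Fin r) ℤ := Matrix.of fun i j => x i (c j) with hN
  set P := AddSubgroup.closure (Set.range N.row) with hP
  have hidx : P.index = N.det.natAbs := index_rows N h
  have hmap : L.map (prj c) = P := by
    rw [hL, AddMonoidHom.map_closure, hP]
    congr 1
    ext y; constructor
    · rintro ⟨_, ⟨k, rfl⟩, rfl⟩; exact ⟨k, rfl⟩
    · rintro ⟨k, rfl⟩; exact ⟨_, ⟨k, rfl⟩, rfl⟩
  have hcap : (P.comap (prj c)) ⊓ sat L ≤ L := by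
    rintro y ⟨hy1, hy2⟩
    have h1 : prj c y ∈ L.map (prj c) := by rw [hmap]; exact hy1
    obtain ⟨u, hu, huy⟩ := h1
    have h2 : y - u ∈ sat L := (sat L).sub_mem hy2 (le_sat L hu)
    have h3 : y - u = 0 := prj_inj x c h h2 (by rw [map_sub, huy, sub_self])
    rw [sub_eq_zero.mp h3]; exact hu
  have hne : P.index ≠ 0 := by rw [hidx]; exact Int.natAbs_ne_zero.mpr h
  have hcomap : (P.comap (prj c)).index ∣ P.index := by
    rw [AddSubgroup.index_comap]
    exact AddSubgroup.relIndex_dvd_index_of_normal _ _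
  have hrel1 : (P.comap (prj c)).relIndex (sat L) ∣ (P.comap (prj c)).index :=
    AddSubgroup.relIndex_dvd_index_of_normal _ _
  have hrel2 : L.relIndex (sat L) ∣ (P.comap (prj c)).relIndex (sat L) := by
    rw [← AddSubgroup.inf_relIndex_right (P.comap (prj c)) (sat L)]
    exact AddSubgroup.relIndex_dvd_of_le_left _ hcap
  have hfin : L.relIndex (sat L) ∣ N.det.natAbs := by
    rw [← hidx]; exact hrel2.trans (hrel1.trans hcomap)
  refine ⟨?_, hfin⟩
  intro h0
  rw [h0] at hfin
  exact h (Int.natAbs_eq_zero.mp (Nat.eq_zero_of_zero_dvd hfin))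

end Pool.Agent.SBG.H92
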