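import Pool.Agent.Helper92_SBG.Rd

namespace Pool.Agent.SBG.H92

open Pool.Agent.SBG

/-- UPB -/
theorem upb (hbxu : BxuStmt) (hcsa : CsaStmt) (hcsb : CsbStmt) : UpbStmt := by
  classical
  intro k hk S hS
  obtain ⟨A, hA⟩ := hbxu k S hS
  obtain ⟨C₁, h₁⟩ := hcsa k A hk
  obtain ⟨C₂, h₂⟩ := hcsb k A hk
  refine ⟨C₁ + C₂, ?_⟩
  intro n hn
  set N := (C₁ + C₂) * n ^ ((68 * k + 23) * (16 * k + 5)) with hN
  -- every relative depth is bounded
  have key : ∀ (H : Subgroup (Gp k)) (g : Gp k), g ∉ H → H.FG →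
      subNorm (S : Set (Gp k)) H ≤ n → wordNorm (S : Set (Gp k)) g ≤ n →
      relDepth H g ≤ ((Nat.sqrt N : ℕ) : ℕ∞) := by
    intro H g hg hfg hH hgn
    have hSm : ∀ C : ℕ, C ≤ C₁ + C₂ → Sm C n H g → relDepth H g ≤ ((Nat.sqrt N : ℕ) : ℕ∞) := by
      rintro C hC ⟨d, hd, hd2⟩
      refine hd.trans ?_
      have h3 : d ^ 2 ≤ N := hd2.trans (Nat.mul_le_mul_right _ hC)
      have h4 : d ≤ Nat.sqrt N := by
        rw [Nat.le_sqrt', ]
        exact h3
      exact_mod_cast h4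
    -- a short generating set
    have hne : {m : ℕ | ∃ X : Finset (Gp k), Subgroup.closure (X : Set (Gp k)) = H ∧
        ∀ x ∈ X, wordNorm (S : Set (Gp k)) x ≤ m}.Nonempty := by
      obtain ⟨X, hX⟩ := hfg
      exact ⟨X.sup (wordNorm (S : Set (Gp k))), X, hX, fun x hx => Finset.le_sup hx⟩
    obtain ⟨X, hXH, hXn⟩ := Nat.sInf_mem hne
    have hXn' : ∀ x ∈ X, wordNorm (S : Set (Gp k)) x ≤ n := fun x hx => (hXn x hx).trans hH
    obtain ⟨hgm, hgx⟩ := hA n hn g hgn
    by_cases hcase : ∃ x ∈ X, x.m ≠ 0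
    · refine hSm C₂ (Nat.le_add_left _ _) ?_
      have h5 := h₂ n hn X (fun x hx => hA n hn x (hXn' x hx)) hcase g hgm hgx
        (by rw [hXH]; exact hg)
      rwa [hXH] at h5
    · have hcase' : ∀ x ∈ X, x.m = 0 := fun x hx => by
        by_contra h0
        exact hcase ⟨x, hx, h0⟩
      have hX' : HX (X.image Gp.x) = H := by
        rw [HX, ← hXH]
        congr 1
        ext y; constructor
        · rintro ⟨_, hx, rfl⟩
          obtain ⟨z, hz, rfl⟩ := Finset.mem_image.mp hx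
          have : (⟨0, z.x⟩ : Gp k) = z := (Gp.eta0 (hcase' z hz)).symm
          change (⟨0, z.x⟩ : Gp k) ∈ (X : Set (Gp k))
          rw [this]; exact hz
        · intro hy
          refine ⟨y.x, Finset.mem_coe.mpr (Finset.mem_image_of_mem _ hy), ?_⟩
          exact (Gp.eta0 (hcase' y hy)).symm
      refine hSm C₁ (Nat.le_add_right _ _) ?_
      have h5 := h₁ n hn (X.image Gp.x) (by
        intro x hx c
        obtain ⟨z, hz, rfl⟩ := Finset.mem_image.mp hx
        exact (hA n hn z (hXn' z hz)).2 c) g hgm hgx (by rw [hX']; exact hg)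
      rwa [hX'] at h5
  have hsup : Sub (S : Set (Gp k)) n ≤ ((Nat.sqrt N : ℕ) : ℕ∞) := by
    refine sSup_le ?_
    rintro _ ⟨H, g, hg, hfg, hH, hgn, rfl⟩
    exact key H g hg hfg hH hgn
  have h6 : ((Nat.sqrt N : ℕ) : ℕ∞) ^ 2 ≤ ((N : ℕ) : ℕ∞) := by
    have := Nat.sqrt_le' N
    exact_mod_cast this
  exact (pow_le_pow_left₀ zero_le hsup 2).trans h6

theorem notEqu (hlwc : LwcStmt) (hupb : UpbStmt) (S : Finset (Gp 100))
    (hS : Subgroup.closure (S : Set (Gp 100)) = ⊤) (K : ℕ) :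
    ¬ Equ (Sub (S : Set (Gp 100))) (fun n => (n : ℕ∞) ^ K) := by
  rintro ⟨⟨C, hC⟩, ⟨C', hC'⟩⟩
  obtain ⟨A, hA⟩ := hlwc 100 (by norm_num) S hS
  obtain ⟨B, hB⟩ := hupb 100 le_rfl S hS
  set E : ℕ := (68 * 100 + 23) * (16 * 100 + 5) with hE
  have hodd : E % 2 = 1 := by rw [hE]
  -- 2 K ≥ E
  have h1 : E ≤ 2 * K := by
    by_contra hlt
    have hlt' : 2 * K + 1 ≤ E := by omega
    -- s ^ E ≤ C (C A s ^ 2) ^ K
    have h2 : ∀ s : ℕ, 2 ≤ s → s ^ E ≤ C * (C * (A * s ^ 2)) ^ K := by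
      intro s hs
      have hA1 : 1 ≤ A * s ^ 2 := by
        by_contra h0
        have h0' : A * s ^ 2 = 0 := by omega
        have h3 := hA s hs
        rw [h0'] at h3
        have h4 : Sub (S : Set (Gp 100)) 0 = 0 := by
          refine le_antisymm (sSup_le ?_) zero_le
          rintro _ ⟨H, g, hg, -, -, hg0, rfl⟩
          exfalso
          apply hg
          have h5 : wordNorm (S : Set (Gp 100)) g = 0 := Nat.le_zero.mp hg0
          have hne : {k : ℕ | ∃ l : List (Gp 100), l.length = k ∧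
              (∀ x ∈ l, x ∈ (S : Set (Gp 100)) ∨ x⁻¹ ∈ (S : Set (Gp 100))) ∧ l.prod = g}.Nonempty := by
            have hgS : g ∈ (Subgroup.closure (S : Set (Gp 100))).toSubmonoid := by rw [hS]; trivial
            rw [Subgroup.closure_toSubmonoid] at hgS
            obtain ⟨l, hl, hlp⟩ := Submonoid.exists_list_of_mem_closure hgS
            exact ⟨l.length, l, rfl, fun x hx => hl x hx, hlp⟩
          have h6 := Nat.sInf_mem hne
          unfold wordNorm at h5
          rw [h5] at h6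
          obtain ⟨l, hl, -, hlp⟩ := h6
          rw [List.length_eq_zero_iff] at hl
          rw [← hlp, hl, List.prod_nil]
          exact H.one_mem
        rw [h4] at h3
        have h5 : s ^ E ≤ 0 := by exact_mod_cast h3
        have : 0 < s ^ E := pow_pos (by omega) _
        omega
      have h3 := (hA s hs).trans (hC _ hA1)
      have h4 : ((s ^ E : ℕ) : ℕ∞) ≤ ((C * (C * (A * s ^ 2)) ^ K : ℕ) : ℕ∞) := by
        refine h3.trans (le_of_eq ?_)
        push_cast
        ring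
      exact_mod_cast h4
    set T := C * (C * A) ^ K with hT
    have h3 : ∀ s : ℕ, 2 ≤ s → s ≤ T := by
      intro s hs
      have h4 : s ^ (2 * K) * s ≤ s ^ (2 * K) * T := by
        calc s ^ (2 * K) * s = s ^ (2 * K + 1) := (pow_succ _ _).symm
          _ ≤ s ^ E := Nat.pow_le_pow_right (by omega) hlt'
          _ ≤ C * (C * (A * s ^ 2)) ^ K := h2 s hs
          _ = s ^ (2 * K) * T := by
              rw [hT, pow_mul, ← mul_assoc, mul_pow (C * A)]; ring
      exact Nat.le_of_mul_le_mul_left h4 (pow_pos (by omega) _)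
    have := h3 (T + 2) (by omega)
    omega
  -- 2 K ≤ E
  have h2 : 2 * K ≤ E := by
    by_contra hlt
    have hlt' : E + 1 ≤ 2 * K := by omega
    have h3 : ∀ n : ℕ, 1 ≤ n → n ^ (2 * K) ≤ C' ^ 2 * (B * (C' * n) ^ E) := by
      intro n hn
      have hC1 : 1 ≤ C' := by
        by_contra h0
        have h0' : C' = 0 := by omega
        have h4 := hC' n hn
        simp only [h0', Nat.cast_zero, zero_mul] at h4
        have h5 : n ^ K ≤ 0 := by exact_mod_cast h4
        have : 0 < n ^ K := pow_pos hn _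
        omega
      have h4 := hC' n hn
      have h5 := hB (C' * n) (Nat.mul_pos hC1 hn)
      have h6 : ((n ^ (2 * K) : ℕ) : ℕ∞) ≤ ((C' ^ 2 * (B * (C' * n) ^ E) : ℕ) : ℕ∞) := by
        calc ((n ^ (2 * K) : ℕ) : ℕ∞) = ((n : ℕ∞) ^ K) ^ 2 := by
              push_cast; rw [← pow_mul, mul_comm]
          _ ≤ ((C' : ℕ∞) * Sub (S : Set (Gp 100)) (C' * n)) ^ 2 :=
              pow_le_pow_left₀ zero_le h4 2
          _ = (C' : ℕ∞) ^ 2 * Sub (S : Set (Gp 100)) (C' * n) ^ 2 := mul_pow _ _ _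
          _ ≤ (C' : ℕ∞) ^ 2 * ((B * (C' * n) ^ E : ℕ) : ℕ∞) := by
              exact mul_le_mul_right h5 _
          _ = ((C' ^ 2 * (B * (C' * n) ^ E) : ℕ) : ℕ∞) := by push_cast; rfl
      exact_mod_cast h6
    set T := C' ^ 2 * (B * C' ^ E) with hT
    have h4 : ∀ n : ℕ, 1 ≤ n → n ≤ T := by
      intro n hn
      have h5 : n ^ E * n ≤ n ^ E * T := by
        calc n ^ E * n = n ^ (E + 1) := (pow_succ _ _).symm
          _ ≤ n ^ (2 * K) := Nat.pow_le_pow_right hn hlt'
          _ ≤ C' ^ 2 * (B * (C' * n) ^ E) := h3 n hn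
          _ = n ^ E * T := by rw [hT, mul_pow]; ring
      exact Nat.le_of_mul_le_mul_left h5 (pow_pos hn _)
    have := h4 (T + 1) (by omega)
    omega
  omega

/-- FIN -/
theorem fin (hnil : NilStmt) (hlwc : LwcStmt) (hupb : UpbStmt) : FinStmt :=
  ⟨Gp 100, inferInstance, (hnil 100).2.2, (hnil 100).1, (hnil 100).2.1, notEqu hlwc hupb⟩

end Pool.Agent.SBG.H92
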